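import Mathlib

/-!
Growing connected vertex sets in the union of the links of the vertices of a set `B`.
`L` is a set of triples that meet `B` in exactly one vertex.
-/

set_option autoImplicit false

namespace Pool.Agent.MP_c82047_co

open Finset Classical

variable {V : Type*} [Fintype V] [DecidableEq V]

/-- The members of `L` whose part outside `B` lies inside `S`. -/
def ind (L : Finset (Finset V)) (B S : Finset V) : Finset (Finset V) :=
  L.filter (fun h => h \ B ⊆ S)

/-- Two vertices lie together in the outer part of a member of `L`. -/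
def Rel (L : Finset (Finset V)) (B : Finset V) (a b : V) : Prop :=
  ∃ h ∈ L, a ∈ h \ B ∧ b ∈ h \ B

/-- No member of `L` has outer vertices both inside and outside `S`. -/
def Closed (L : Finset (Finset V)) (B S : Finset V) : Prop :=
  ∀ h ∈ L, ∀ a ∈ h \ B, a ∈ S → h \ B ⊆ S

/-- The connected component of `v`. -/
noncomputable def cmp (L : Finset (Finset V)) (B : Finset V) (v : V) : Finset V :=
  univ.filter (fun w => Relation.ReflTransGen (Rel L B) v w)

lemma Rel.symm' {L : Finset (Finset V)} {B : Finset V} {a b : V} (h : Rel L B a b) :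
    Rel L B b a := by
  obtain ⟨h, h1, h2, h3⟩ := h
  exact ⟨h, h1, h3, h2⟩

omit [DecidableEq V] in
lemma mem_cmp_self [DecidableEq V] (L : Finset (Finset V)) (B : Finset V) (v : V) :
    v ∈ cmp L B v := by
  simp only [cmp, mem_filter, mem_univ, true_and]
  exact Relation.ReflTransGen.refl

lemma cmp_closed (L : Finset (Finset V)) (B : Finset V) (v : V) : Closed L B (cmp L B v) := by
  intro h hL a ha hav b hb
  simp only [cmp, mem_filter, mem_univ, true_and] at hav ⊢
  exact hav.tail ⟨h, hL, ha, hb⟩

lemma rtg_symm {L : Finset (Finset V)} {B : Finset V} {a b : V}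
    (h : Relation.ReflTransGen (Rel L B) a b) : Relation.ReflTransGen (Rel L B) b a := by
  induction h with
  | refl => exact Relation.ReflTransGen.refl
  | tail _ h2 ih => exact Relation.ReflTransGen.head h2.symm' ih

lemma cmp_eq {L : Finset (Finset V)} {B : Finset V} {v w : V} (h : w ∈ cmp L B v) :
    cmp L B w = cmp L B v := by
  simp only [cmp, mem_filter, mem_univ, true_and] at h
  ext x
  simp only [cmp, mem_filter, mem_univ, true_and]
  exact ⟨fun hx => h.trans hx, fun hx => (rtg_symm h).trans hx⟩

/-- A closed set that contains `v` contains its component. -/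
lemma cmp_subset {L : Finset (Finset V)} {B S : Finset V} (hS : Closed L B S) {v : V}
    (hv : v ∈ S) : cmp L B v ⊆ S := by
  intro w hw
  simp only [cmp, mem_filter, mem_univ, true_and] at hw
  induction hw with
  | refl => exact hv
  | tail _ h2 ih =>
    obtain ⟨h, h1, h3, h4⟩ := h2
    exact hS h h1 _ h3 ih h4

/-- Adding the missing outer vertex of a crossing member. -/
lemma exists_add {L : Finset (Finset V)} {B : Finset V} (hL : ∀ h ∈ L, (h \ B).card = 2)
    {S : Finset V} (hS : ¬ Closed L B S) :
    ∃ a ∈ S, ∃ b, b ∉ S ∧ Rel L B a b ∧ (ind L B S).card + 1 ≤ (ind L B (insert b S)).card := by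
  unfold Closed at hS
  push Not at hS
  obtain ⟨h, hhL, a, ha, haS, hns⟩ := hS
  obtain ⟨b, hb, hbS⟩ := not_subset.1 hns
  have hab : a ≠ b := by rintro rfl; exact hbS haS
  refine ⟨a, haS, b, hbS, ⟨h, hhL, ha, hb⟩, ?_⟩
  have hpair : h \ B = {a, b} := by
    symm
    apply eq_of_subset_of_card_le
    · intro x hx
      simp only [mem_insert, mem_singleton] at hx
      rcases hx with rfl | rfl <;> assumption
    · rw [hL h hhL, card_pair hab]
  have h1 : insert h (ind L B S) ⊆ ind L B (insert b S) := by
    intro g hg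
    rw [mem_insert] at hg
    rcases hg with rfl | hg
    · simp only [ind, mem_filter]
      refine ⟨hhL, ?_⟩
      rw [hpair]
      intro x hx
      simp only [mem_insert, mem_singleton] at hx ⊢
      rcases hx with rfl | rfl
      · exact Or.inr haS
      · exact Or.inl rfl
    · simp only [ind, mem_filter] at hg ⊢
      exact ⟨hg.1, hg.2.trans (subset_insert _ _)⟩
  have h2 : h ∉ ind L B S := by
    simp only [ind, mem_filter, not_and]
    exact fun _ => hns
  rw [← card_insert_of_notMem h2]
  exact card_le_card h1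

lemma ind_mono (L : Finset (Finset V)) (B : Finset V) {S T : Finset V} (h : S ⊆ T) :
    (ind L B S).card ≤ (ind L B T).card := by
  apply card_le_card
  intro g hg
  simp only [ind, mem_filter] at hg ⊢
  exact ⟨hg.1, hg.2.trans h⟩

/-- Growth inside a component. -/
lemma grow_cmp {L : Finset (Finset V)} {B : Finset V} (hL : ∀ h ∈ L, (h \ B).card = 2) (v : V) :
    ∀ r, 1 ≤ r → r ≤ (cmp L B v).card →
      ∃ S ⊆ cmp L B v, v ∈ S ∧ S.card = r ∧ r ≤ (ind L B S).card + 1 := by
  intro r hr
  induction r, hr using Nat.le_induction with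
  | base =>
    intro _
    exact ⟨{v}, by simpa using mem_cmp_self L B v, by simp, by simp, by simp⟩
  | succ r hr ih =>
    intro hle
    obtain ⟨S, hS1, hvS, hS2, hS3⟩ := ih (by omega)
    have hncl : ¬ Closed L B S := by
      intro hcl
      have := card_le_card (cmp_subset hcl hvS)
      omega
    obtain ⟨a, ha, b, hb, hab, hcard⟩ := exists_add hL hncl
    refine ⟨insert b S, ?_, mem_insert_of_mem hvS, ?_, by omega⟩
    · intro x hx
      rw [mem_insert] at hx
      rcases hx with rfl | hx
      · obtain ⟨h, h1, h2, h3⟩ := hab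
        exact cmp_closed L B v h h1 a h2 (hS1 ha) h3
      · exact hS1 hx
    · rw [card_insert_of_notMem hb, hS2]

/-- Growth inside a closed set all of whose closed subsets induce many members of `L`. -/
lemma grow_closed {L : Finset (Finset V)} {B : Finset V} (hL : ∀ h ∈ L, (h \ B).card = 2)
    {U : Finset V} (hU : Closed L B U)
    (hsub : ∀ S ⊆ U, Closed L B S → S.card ≤ (ind L B S).card) :
    ∀ r, r ≤ U.card → ∃ S ⊆ U, S.card = r ∧ r ≤ (ind L B S).card + 1 := by
  intro r
  induction r with
  | zero => intro _; exact ⟨∅, empty_subset _, rfl, by omega⟩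
  | succ r ih =>
    intro hle
    obtain ⟨S, hS1, hS2, hS3⟩ := ih (by omega)
    by_cases hcl : Closed L B S
    · have h1 := hsub S hS1 hcl
      obtain ⟨b, hbU, hbS⟩ : ∃ b ∈ U, b ∉ S := by
        by_contra hcon
        push Not at hcon
        have := card_le_card (show U ⊆ S from hcon)
        omega
      refine ⟨insert b S, ?_, ?_, ?_⟩
      · intro x hx
        rw [mem_insert] at hx
        rcases hx with rfl | hx
        · exact hbU
        · exact hS1 hx
      · rw [card_insert_of_notMem hbS, hS2]
      · have := ind_mono L B (subset_insert b S)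
        omega
    · obtain ⟨a, ha, b, hb, hab, hcard⟩ := exists_add hL hcl
      refine ⟨insert b S, ?_, ?_, by omega⟩
      · intro x hx
        rw [mem_insert] at hx
        rcases hx with rfl | hx
        · obtain ⟨h, h1, h2, h3⟩ := hab
          exact hU h h1 a h2 (hS1 ha) h3
        · exact hS1 hx
      · rw [card_insert_of_notMem hb, hS2]

/-- The sparsity hypothesis: every set of at most `s` outer vertices induces at most `|s| - 2`
members of `L`. -/
def Sparse (L : Finset (Finset V)) (B : Finset V) (s : ℕ) : Prop :=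
  ∀ S : Finset V, S.card ≤ s → (ind L B S).card + 2 ≤ s

lemma card_cmp_lt {L : Finset (Finset V)} {B : Finset V} (hL : ∀ h ∈ L, (h \ B).card = 2) {s : ℕ}
    (hs : Sparse L B s) (v : V) : (cmp L B v).card < s := by
  by_contra hcon
  push Not at hcon
  have h2 := hs ∅ (by simp)
  obtain ⟨S, -, -, hS2, hS3⟩ := grow_cmp hL v s (by omega) hcon
  have := hs S (by omega)
  omega

lemma card_closed_lt {L : Finset (Finset V)} {B : Finset V} (hL : ∀ h ∈ L, (h \ B).card = 2)
    {s : ℕ} (hs : Sparse L B s) {U : Finset V} (hU : Closed L B U)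
    (hsub : ∀ S ⊆ U, Closed L B S → S.card ≤ (ind L B S).card) : U.card < s := by
  by_contra hcon
  push Not at hcon
  have h2 := hs ∅ (by simp)
  obtain ⟨S, -, hS2, hS3⟩ := grow_closed hL hU hsub s hcon
  have := hs S (by omega)
  omega

/-- The members of `L` inside a closed set, counted through components. -/
lemma weight_sum {L : Finset (Finset V)} {B : Finset V} (hL : ∀ h ∈ L, (h \ B).card = 2)
    {S : Finset V} (hS : Closed L B S) :
    ∑ v ∈ S, ((ind L B (cmp L B v)).card : ℚ) / ((cmp L B v).card : ℚ) =
      ((ind L B S).card : ℚ) := by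
  have h1 : ∀ v, ((ind L B (cmp L B v)).card : ℚ) / ((cmp L B v).card : ℚ) =
      ∑ h ∈ L, if h \ B ⊆ cmp L B v then 1 / ((cmp L B v).card : ℚ) else 0 := by
    intro v
    rw [← sum_filter, sum_const, nsmul_eq_mul, mul_one_div]
    rfl
  rw [sum_congr rfl (fun v _ => h1 v), sum_comm]
  have h2 : ∀ h ∈ L, (∑ v ∈ S, if h \ B ⊆ cmp L B v then 1 / ((cmp L B v).card : ℚ) else 0) =
      if h \ B ⊆ S then 1 else 0 := by
    intro h hh
    obtain ⟨a, ha⟩ : (h \ B).Nonempty := by rw [← card_pos, hL h hh]; norm_num
    have hiff : ∀ v, h \ B ⊆ cmp L B v ↔ v ∈ cmp L B a := by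
      intro v
      constructor
      · intro hsub
        have := cmp_eq (hsub ha)
        rw [this]; exact mem_cmp_self L B v
      · intro hv
        have := cmp_eq hv
        rw [this]
        exact cmp_closed L B a h hh a ha (mem_cmp_self L B a)
    split_ifs with hS'
    · have hsub : cmp L B a ⊆ S := cmp_subset hS (hS' ha)
      rw [← sum_filter]
      have h3 : S.filter (fun v => h \ B ⊆ cmp L B v) = cmp L B a := by
        ext v
        rw [mem_filter, hiff]
        exact ⟨fun h => h.2, fun h => ⟨hsub h, h⟩⟩
      rw [h3]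
      have h4 : ∀ v ∈ cmp L B a, 1 / ((cmp L B v).card : ℚ) = 1 / ((cmp L B a).card : ℚ) :=
        fun v hv => by rw [cmp_eq hv]
      rw [sum_congr rfl h4, sum_const, nsmul_eq_mul]
      have : ((cmp L B a).card : ℚ) ≠ 0 := by
        have : 0 < (cmp L B a).card := card_pos.2 ⟨a, mem_cmp_self L B a⟩
        exact_mod_cast this.ne'
      field_simp
    · apply sum_eq_zero
      intro v hv
      rw [if_neg]
      intro hsub
      apply hS'
      exact hsub.trans (cmp_subset hS hv)
  rw [sum_congr rfl h2, ← sum_filter, sum_const, nsmul_eq_mul, mul_one]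
  rfl

lemma closed_univ (L : Finset (Finset V)) (B : Finset V) : Closed L B univ :=
  fun _ _ _ _ _ => subset_univ _

/-- The number of members of a sparse `L` is at most `(s-2)/(s-1) |V| + (s-2)`. -/
theorem card_le_of_sparse {L : Finset (Finset V)} {B : Finset V}
    (hL : ∀ h ∈ L, (h \ B).card = 2) {s : ℕ} (hs : Sparse L B s) (hs2 : 3 ≤ s) :
    (L.card : ℚ) ≤ ((s : ℚ) - 2) / ((s : ℚ) - 1) * (Fintype.card V : ℚ) + ((s : ℚ) - 2) := by
  set w : V → ℚ := fun v => ((ind L B (cmp L B v)).card : ℚ) / ((cmp L B v).card : ℚ) with hw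
  set U : Finset V := univ.filter (fun v => (cmp L B v).card ≤ (ind L B (cmp L B v)).card) with hU
  have hcpos : ∀ v, 0 < (cmp L B v).card := fun v => card_pos.2 ⟨v, mem_cmp_self L B v⟩
  have hUcl : Closed L B U := by
    intro h hh a ha haU b hb
    simp only [hU, mem_filter, mem_univ, true_and] at haU ⊢
    have : b ∈ cmp L B a := cmp_closed L B a h hh a ha (mem_cmp_self L B a) hb
    rw [cmp_eq this]
    exact haU
  have hsub : ∀ S ⊆ U, Closed L B S → S.card ≤ (ind L B S).card := by
    intro S hSU hS
    have h1 := weight_sum hL hS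
    have h2 : (S.card : ℚ) ≤ ∑ v ∈ S, w v := by
      rw [card_eq_sum_ones, Nat.cast_sum]
      apply sum_le_sum
      intro v hv
      have := hSU hv
      simp only [hU, mem_filter, mem_univ, true_and] at this
      rw [hw, Nat.cast_one, le_div_iff₀ (by exact_mod_cast hcpos v), one_mul]
      exact_mod_cast this
    rw [h1] at h2
    exact_mod_cast h2
  have hUcard := card_closed_lt hL hs hUcl hsub
  have hindU := hs U (by omega)
  have htot := weight_sum hL (closed_univ L B)
  have hall : ind L B univ = L := by
    ext h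
    simp [ind]
  rw [hall] at htot
  rw [← htot, ← sum_filter_add_sum_filter_not univ
    (fun v => (cmp L B v).card ≤ (ind L B (cmp L B v)).card)]
  have h3 : ∑ v ∈ U, w v = ((ind L B U).card : ℚ) := weight_sum hL hUcl
  have hsQ : (3 : ℚ) ≤ (s : ℚ) := by exact_mod_cast hs2
  have h4 : ((ind L B U).card : ℚ) ≤ (s : ℚ) - 2 := by
    have : ((ind L B U).card : ℚ) + 2 ≤ (s : ℚ) := by exact_mod_cast hindU
    linarith
  have h5 : ∑ v ∈ univ.filter (fun v => ¬ (cmp L B v).card ≤ (ind L B (cmp L B v)).card), w v ≤
      ((s : ℚ) - 2) / ((s : ℚ) - 1) * (Fintype.card V : ℚ) := by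
    have h6 : ∀ v ∈ univ.filter (fun v => ¬ (cmp L B v).card ≤ (ind L B (cmp L B v)).card),
        w v ≤ ((s : ℚ) - 2) / ((s : ℚ) - 1) := by
      intro v hv
      simp only [mem_filter, mem_univ, true_and, not_le] at hv
      rw [hw]
      simp only
      have hc := hcpos v
      have hlt := card_cmp_lt hL hs v
      rw [div_le_div_iff₀ (by exact_mod_cast hc) (by linarith)]
      have e1 : ((ind L B (cmp L B v)).card : ℚ) + 1 ≤ ((cmp L B v).card : ℚ) := by
        exact_mod_cast hv
      have e2 : ((cmp L B v).card : ℚ) + 1 ≤ (s : ℚ) := by exact_mod_cast hlt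
      have e3 : (0 : ℚ) < ((cmp L B v).card : ℚ) := by exact_mod_cast hc
      nlinarith
    refine le_trans (sum_le_card_nsmul _ _ _ h6) ?_
    rw [nsmul_eq_mul, mul_comm]
    apply mul_le_mul_of_nonneg_left
    · have := card_le_univ (univ.filter
        (fun v => ¬ (cmp L B v).card ≤ (ind L B (cmp L B v)).card))
      exact_mod_cast this
    · apply div_nonneg <;> linarith
  rw [← hU]
  have h7 : ∑ v ∈ U, w v ≤ (s : ℚ) - 2 := by rw [h3]; exact h4
  linarith

/-- If every closed set of covered vertices that avoids `D` induces at least as many members of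
`L` as it has vertices, then `|L| ≤ (s - 2) (|D| + 1)`. -/
theorem card_le_of_transversal {L : Finset (Finset V)} {B : Finset V}
    (hL : ∀ h ∈ L, (h \ B).card = 2) {s : ℕ} (hs : Sparse L B s) (D : Finset V)
    (hD : ∀ S : Finset V, Closed L B S → Disjoint S D → (∀ v ∈ S, ∃ h ∈ L, v ∈ h \ B) →
      S.card ≤ (ind L B S).card) :
    L.card ≤ (s - 2) * (D.card + 1) := by
  set U : Finset V := univ.filter (fun v => (∃ h ∈ L, v ∈ h \ B) ∧ Disjoint (cmp L B v) D) with hU
  have hUcl : Closed L B U := by
    intro h hh a ha haU b hb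
    simp only [hU, mem_filter, mem_univ, true_and] at haU ⊢
    have : b ∈ cmp L B a := cmp_closed L B a h hh a ha (mem_cmp_self L B a) hb
    rw [cmp_eq this]
    exact ⟨⟨h, hh, hb⟩, haU.2⟩
  have hsub : ∀ S ⊆ U, Closed L B S → S.card ≤ (ind L B S).card := by
    intro S hSU hS
    apply hD S hS
    · rw [disjoint_left]
      intro v hv hvD
      have := hSU hv
      simp only [hU, mem_filter, mem_univ, true_and] at this
      exact (disjoint_left.1 this.2) (mem_cmp_self L B v) hvD
    · intro v hv
      have := hSU hv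
      simp only [hU, mem_filter, mem_univ, true_and] at this
      exact this.1
  have hUcard := card_closed_lt hL hs hUcl hsub
  have hindU := hs U (by omega)
  have hcov : L ⊆ ind L B U ∪ D.biUnion (fun d => ind L B (cmp L B d)) := by
    intro h hh
    rw [mem_union]
    obtain ⟨a, ha⟩ : (h \ B).Nonempty := by rw [← card_pos, hL h hh]; norm_num
    have hsubc : h \ B ⊆ cmp L B a := cmp_closed L B a h hh a ha (mem_cmp_self L B a)
    by_cases hdis : Disjoint (cmp L B a) D
    · left
      simp only [ind, mem_filter]
      refine ⟨hh, fun b hb => ?_⟩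
      simp only [hU, mem_filter, mem_univ, true_and]
      refine ⟨⟨h, hh, hb⟩, ?_⟩
      rw [cmp_eq (hsubc hb)]
      exact hdis
    · right
      rw [not_disjoint_iff] at hdis
      obtain ⟨d, hd1, hd2⟩ := hdis
      rw [mem_biUnion]
      refine ⟨d, hd2, ?_⟩
      simp only [ind, mem_filter]
      refine ⟨hh, ?_⟩
      rw [cmp_eq hd1]
      exact hsubc
  have h1 := card_le_card hcov
  have h2 := card_union_le (ind L B U) (D.biUnion (fun d => ind L B (cmp L B d)))
  have h3 : (D.biUnion (fun d => ind L B (cmp L B d))).card ≤ D.card * (s - 2) := by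
    apply card_biUnion_le_card_mul
    intro d _
    have h4 := card_cmp_lt hL hs d
    have := hs (cmp L B d) (by omega)
    omega
  have h5 : (ind L B U).card ≤ s - 2 := by omega
  calc L.card ≤ (s - 2) + D.card * (s - 2) := by omega
    _ = (s - 2) * (D.card + 1) := by ring

end Pool.Agent.MP_c82047_co
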