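import Mathlib
import Pool.Agent.Lib.MP_c82047_co.Growth

/-!
Degree inequalities in 3-graphs in which no `k` vertices span `k - 3` edges.
-/

set_option autoImplicit false

namespace Pool.Agent.MP_c82047_co

open Finset Classical

variable {V : Type*} [Fintype V] [DecidableEq V]

/-- Every `k` vertices span fewer than `k - 3` edges of `H`. -/
def BESFree (k : ℕ) (H : Finset (Finset V)) : Prop :=
  ∀ S : Finset V, S.card = k → (H.filter (fun e => e ⊆ S)).card < k - 3

/-- The number of edges that contain `v`. -/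
def deg (H : Finset (Finset V)) (v : V) : ℕ := (H.filter (fun e => v ∈ e)).card

omit [DecidableEq V] in
lemma BESFree.small [DecidableEq V] {k : ℕ} {H : Finset (Finset V)} (hH : BESFree k H)
    (hk : k ≤ Fintype.card V) {S : Finset V} (hS : S.card ≤ k) :
    (H.filter (fun e => e ⊆ S)).card < k - 3 := by
  obtain ⟨T, hST, -, hT⟩ := exists_subsuperset_card_eq (subset_univ S) hS (by simpa using hk)
  refine lt_of_le_of_lt (card_le_card ?_) (hH T hT)
  intro e he
  simp only [mem_filter] at he ⊢
  exact ⟨he.1, he.2.trans hST⟩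

/-- Two vertices lie in few common edges. -/
lemma codeg_le {k : ℕ} {H : Finset (Finset V)} (h3 : ∀ e ∈ H, e.card = 3) (hH : BESFree k H)
    (hk : k ≤ Fintype.card V) (hk3 : 3 ≤ k) {x y : V} (hxy : x ≠ y) :
    (H.filter (fun e => x ∈ e ∧ y ∈ e)).card ≤ k := by
  by_contra hcon
  push Not at hcon
  obtain ⟨A, hA, hAc⟩ := exists_subset_card_eq (show k - 3 ≤ (H.filter (fun e => x ∈ e ∧ y ∈ e)).card by omega)
  have hS : ({x, y} ∪ A.biUnion (fun e => e \ {x, y})).card ≤ k := by
    refine le_trans (card_union_le _ _) ?_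
    rw [card_pair hxy]
    have : (A.biUnion (fun e => e \ {x, y})).card ≤ A.card * 1 := by
      apply card_biUnion_le_card_mul
      intro e he
      have he' := hA he
      rw [mem_filter] at he'
      have hsub : ({x, y} : Finset V) ⊆ e := by
        intro z hz
        simp only [mem_insert, mem_singleton] at hz
        rcases hz with rfl | rfl
        · exact he'.2.1
        · exact he'.2.2
      rw [card_sdiff_of_subset hsub, h3 e he'.1, card_pair hxy]
    omega
  have h1 := hH.small hk hS
  have h2 : A ⊆ H.filter (fun e => e ⊆ {x, y} ∪ A.biUnion (fun e => e \ {x, y})) := by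
    intro e he
    have he' := hA he
    rw [mem_filter] at he' ⊢
    refine ⟨he'.1, fun z hz => ?_⟩
    by_cases hzz : z ∈ ({x, y} : Finset V)
    · exact mem_union_left _ hzz
    · apply mem_union_right
      rw [mem_biUnion]
      exact ⟨e, he, mem_sdiff.2 ⟨hz, hzz⟩⟩
  have h3 := card_le_card h2
  omega

/-- The edges that meet `B` in exactly one vertex. -/
def link (H : Finset (Finset V)) (B : Finset V) : Finset (Finset V) :=
  H.filter (fun e => (e ∩ B).card = 1)

lemma link_card {H : Finset (Finset V)} (h3 : ∀ e ∈ H, e.card = 3) (B : Finset V) :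
    ∀ h ∈ link H B, (h \ B).card = 2 := by
  intro h hh
  simp only [link, mem_filter] at hh
  have := card_sdiff_add_card_inter h B
  rw [h3 h hh.1, hh.2] at this
  omega

/-- Shadow adjacency. -/
def SAdj (H : Finset (Finset V)) (x y : V) : Prop := x ≠ y ∧ ∃ e ∈ H, x ∈ e ∧ y ∈ e

/-- The neighbourhood of `x` in the shadow. -/
noncomputable def nbhd (H : Finset (Finset V)) (x : V) : Finset V :=
  univ.filter (fun y => SAdj H x y)

/-- In a 3-graph in which no `k` vertices span `k - 3` edges, vertices of large degree have shadow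
neighbourhoods that differ a lot. -/
theorem twin {k : ℕ} {H : Finset (Finset V)} (h3 : ∀ e ∈ H, e.card = 3) (hH : BESFree k H)
    (hk : k ≤ Fintype.card V) (hk4 : 4 ≤ k) {x y : V} (hxy : x ≠ y) :
    deg H x + deg H y ≤ k * ((symmDiff (nbhd H x) (nbhd H y)).card + k + 3) := by
  set B : Finset V := {x, y} with hB
  have hBc : B.card = 2 := card_pair hxy
  set L := link H B with hLdef
  have hL := link_card h3 B
  have hsparse : Sparse L B (k - 2) := by
    intro S hS
    have h1 : (S ∪ B).card ≤ k := by
      have := card_union_le S B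
      omega
    have h2 := hH.small hk h1
    have h4 : ind L B S ⊆ H.filter (fun e => e ⊆ S ∪ B) := by
      intro e he
      simp only [ind, hLdef, link, mem_filter] at he ⊢
      refine ⟨he.1.1, fun z hz => ?_⟩
      by_cases hzB : z ∈ B
      · exact mem_union_right _ hzB
      · exact mem_union_left _ (he.2 (mem_sdiff.2 ⟨hz, hzB⟩))
    have := card_le_card h4
    omega
  set C := H.filter (fun e => x ∈ e ∧ y ∈ e) with hC
  have hCle : C.card ≤ k := codeg_le h3 hH hk (by omega) hxy
  set D : Finset V := symmDiff (nbhd H x) (nbhd H y) ∪ C.biUnion (fun e => e \ B) with hD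
  have hDcard : D.card ≤ (symmDiff (nbhd H x) (nbhd H y)).card + k := by
    refine le_trans (card_union_le _ _) ?_
    have : (C.biUnion (fun e => e \ B)).card ≤ C.card * 1 := by
      apply card_biUnion_le_card_mul
      intro e he
      rw [hC, mem_filter] at he
      have hsub : B ⊆ e := by
        intro z hz
        simp only [hB, mem_insert, mem_singleton] at hz
        rcases hz with rfl | rfl
        · exact he.2.1
        · exact he.2.2
      rw [card_sdiff_of_subset hsub, h3 e he.1, hBc]
    omega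
  -- the two kinds of members of `L`
  have hkind : ∀ h ∈ L, (x ∈ h ∧ y ∉ h) ∨ (y ∈ h ∧ x ∉ h) := by
    intro h hh
    simp only [hLdef, link, mem_filter] at hh
    obtain ⟨a, ha⟩ := card_eq_one.1 hh.2
    by_cases hx : x ∈ h
    · left
      refine ⟨hx, fun hy => ?_⟩
      have h1 : x ∈ h ∩ B := by simp [hB, hx]
      have h2 : y ∈ h ∩ B := by simp [hB, hy]
      rw [ha, mem_singleton] at h1 h2
      exact hxy (h1.trans h2.symm)
    · right
      refine ⟨?_, hx⟩
      have h1 : a ∈ h ∩ B := by rw [ha]; exact mem_singleton_self a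
      simp only [hB, mem_inter, mem_insert, mem_singleton] at h1
      rcases h1.2 with h2 | h2
      · exact absurd (h2 ▸ h1.1) hx
      · exact h2 ▸ h1.1
  have hmemL : ∀ h ∈ H, ((x ∈ h ∧ y ∉ h) ∨ (y ∈ h ∧ x ∉ h)) → h ∈ L := by
    intro h hh hc
    simp only [hLdef, link, mem_filter]
    refine ⟨hh, ?_⟩
    rw [card_eq_one]
    rcases hc with hc | hc
    · refine ⟨x, ?_⟩
      ext z
      simp only [hB, mem_inter, mem_insert, mem_singleton]
      constructor
      · rintro ⟨h1, rfl | rfl⟩
        · rfl
        · exact absurd h1 hc.2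
      · rintro rfl; exact ⟨hc.1, Or.inl rfl⟩
    · refine ⟨y, ?_⟩
      ext z
      simp only [hB, mem_inter, mem_insert, mem_singleton]
      constructor
      · rintro ⟨h1, rfl | rfl⟩
        · exact absurd h1 hc.2
        · rfl
      · rintro rfl; exact ⟨hc.1, Or.inr rfl⟩
  have hkey := card_le_of_transversal hL hsparse D (by
    intro S hS hdis hcov
    -- every vertex of `S` is in a member through `x` and in one through `y`
    have hboth : ∀ v ∈ S, (∃ h ∈ L, x ∈ h ∧ v ∈ h \ B) ∧ (∃ h ∈ L, y ∈ h ∧ v ∈ h \ B) := by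
      intro v hv
      have hvD : v ∉ D := fun h => (disjoint_left.1 hdis) hv h
      obtain ⟨h, hh, hvh⟩ := hcov v hv
      have hhH : h ∈ H := (mem_filter.1 hh).1
      rw [mem_sdiff] at hvh
      have hvx : v ≠ x := by rintro rfl; exact hvh.2 (by simp [hB])
      have hvy : v ≠ y := by rintro rfl; exact hvh.2 (by simp [hB])
      have hvB : v ∉ B := hvh.2
      have hns : v ∉ symmDiff (nbhd H x) (nbhd H y) := fun h => hvD (mem_union_left _ h)
      have hnC : ∀ e ∈ C, v ∉ e := by
        intro e he hve
        apply hvD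
        apply mem_union_right
        rw [mem_biUnion]
        exact ⟨e, he, mem_sdiff.2 ⟨hve, hvB⟩⟩
      have hiff : SAdj H x v ↔ SAdj H y v := by
        rw [mem_symmDiff] at hns
        simp only [nbhd, mem_filter, mem_univ, true_and] at hns
        tauto
      have hx_of : SAdj H x v → ∃ h ∈ L, x ∈ h ∧ v ∈ h \ B := by
        rintro ⟨-, e, he, hxe, hve⟩
        have hye : y ∉ e := fun hye => hnC e (by rw [hC, mem_filter]; exact ⟨he, hxe, hye⟩) hve
        exact ⟨e, hmemL e he (Or.inl ⟨hxe, hye⟩), hxe, mem_sdiff.2 ⟨hve, hvB⟩⟩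
      have hy_of : SAdj H y v → ∃ h ∈ L, y ∈ h ∧ v ∈ h \ B := by
        rintro ⟨-, e, he, hye, hve⟩
        have hxe : x ∉ e := fun hxe => hnC e (by rw [hC, mem_filter]; exact ⟨he, hxe, hye⟩) hve
        exact ⟨e, hmemL e he (Or.inr ⟨hye, hxe⟩), hye, mem_sdiff.2 ⟨hve, hvB⟩⟩
      rcases hkind h hh with hc | hc
      · have : SAdj H x v := ⟨hvx.symm, h, hhH, hc.1, hvh.1⟩
        exact ⟨hx_of this, hy_of (hiff.1 this)⟩
      · have : SAdj H y v := ⟨hvy.symm, h, hhH, hc.1, hvh.1⟩
        exact ⟨hx_of (hiff.2 this), hy_of this⟩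
    have hAx : S.card ≤ ((ind L B S).filter (fun h => x ∈ h)).card * 2 := by
      have hsub : S ⊆ ((ind L B S).filter (fun h => x ∈ h)).biUnion (fun h => h \ B) := by
        intro v hv
        obtain ⟨⟨h, hh, hxh, hvh⟩, -⟩ := hboth v hv
        rw [mem_biUnion]
        refine ⟨h, ?_, hvh⟩
        simp only [ind, mem_filter]
        exact ⟨⟨hh, hS h hh v hvh hv⟩, hxh⟩
      refine le_trans (card_le_card hsub) ?_
      apply card_biUnion_le_card_mul
      intro h hh
      simp only [ind, mem_filter] at hh
      exact le_of_eq (hL h hh.1.1)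
    have hAy : S.card ≤ ((ind L B S).filter (fun h => ¬ x ∈ h)).card * 2 := by
      have hsub : S ⊆ ((ind L B S).filter (fun h => ¬ x ∈ h)).biUnion (fun h => h \ B) := by
        intro v hv
        obtain ⟨-, ⟨h, hh, hyh, hvh⟩⟩ := hboth v hv
        rw [mem_biUnion]
        refine ⟨h, ?_, hvh⟩
        simp only [ind, mem_filter]
        refine ⟨⟨hh, hS h hh v hvh hv⟩, ?_⟩
        rcases hkind h hh with hc | hc
        · exact absurd hyh hc.2
        · exact hc.2
      refine le_trans (card_le_card hsub) ?_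
      apply card_biUnion_le_card_mul
      intro h hh
      simp only [ind, mem_filter] at hh
      exact le_of_eq (hL h hh.1.1)
    have hsplit := card_filter_add_card_filter_not (s := ind L B S) (fun h => x ∈ h)
    change S.card ≤ (ind L B S).card
    omega)
  -- degrees
  have hdeg : deg H x + deg H y = L.card + 2 * C.card := by
    have hx : deg H x = (L.filter (fun h => x ∈ h)).card + C.card := by
      unfold deg
      rw [← card_union_of_disjoint]
      · congr 1
        ext h
        simp only [mem_filter, mem_union, hC]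
        constructor
        · rintro ⟨h1, h2⟩
          by_cases hy : y ∈ h
          · exact Or.inr ⟨h1, h2, hy⟩
          · exact Or.inl ⟨hmemL h h1 (Or.inl ⟨h2, hy⟩), h2⟩
        · rintro (⟨h1, h2⟩ | ⟨h1, h2, -⟩)
          · exact ⟨(mem_filter.1 h1).1, h2⟩
          · exact ⟨h1, h2⟩
      · rw [disjoint_left]
        intro h h1 h2
        simp only [mem_filter, hC] at h1 h2
        rcases hkind h h1.1 with hc | hc
        · exact hc.2 h2.2.2
        · exact hc.2 h2.2.1
    have hy : deg H y = (L.filter (fun h => ¬ x ∈ h)).card + C.card := by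
      unfold deg
      rw [← card_union_of_disjoint]
      · congr 1
        ext h
        simp only [mem_filter, mem_union, hC]
        constructor
        · rintro ⟨h1, h2⟩
          by_cases hx : x ∈ h
          · exact Or.inr ⟨h1, hx, h2⟩
          · exact Or.inl ⟨hmemL h h1 (Or.inr ⟨h2, hx⟩), hx⟩
        · rintro (⟨h1, h2⟩ | ⟨h1, -, h2⟩)
          · refine ⟨(mem_filter.1 h1).1, ?_⟩
            rcases hkind h h1 with hc | hc
            · exact absurd hc.1 h2
            · exact hc.1
          · exact ⟨h1, h2⟩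
      · rw [disjoint_left]
        intro h h1 h2
        simp only [mem_filter, hC] at h1 h2
        exact h1.2 h2.2.1
    have := card_filter_add_card_filter_not (s := L) (fun h => x ∈ h)
    omega
  rw [hdeg]
  have h5 : L.card ≤ k * ((symmDiff (nbhd H x) (nbhd H y)).card + k + 1) := by
    refine le_trans hkey ?_
    apply Nat.mul_le_mul
    · omega
    · omega
  calc L.card + 2 * C.card ≤ k * ((symmDiff (nbhd H x) (nbhd H y)).card + k + 1) + 2 * k := by
        omega
    _ = k * ((symmDiff (nbhd H x) (nbhd H y)).card + k + 3) := by ring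

/-- The degrees of the three vertices of an edge. -/
theorem deg_edge {k : ℕ} {H : Finset (Finset V)} (h3 : ∀ e ∈ H, e.card = 3) (hH : BESFree k H)
    (hk : k ≤ Fintype.card V) (hk6 : 6 ≤ k) {B : Finset V} (hB : B ∈ H) :
    (∑ v ∈ B, (deg H v : ℚ)) ≤ ((k : ℚ) - 5) / ((k : ℚ) - 4) * (Fintype.card V : ℚ) + 19 * k := by
  have hBc : B.card = 3 := h3 B hB
  set L := link H B with hLdef
  have hL := link_card h3 B
  have hsparse : Sparse L B (k - 3) := by
    intro S hS
    have h1 : (S ∪ B).card ≤ k := by
      have := card_union_le S B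
      omega
    have h2 := hH.small hk h1
    have hnot : B ∉ ind L B S := by
      intro h
      simp only [ind, hLdef, link, mem_filter, inter_self] at h
      omega
    have h4 : insert B (ind L B S) ⊆ H.filter (fun e => e ⊆ S ∪ B) := by
      intro e he
      rw [mem_insert] at he
      rcases he with rfl | he
      · rw [mem_filter]; exact ⟨hB, subset_union_right⟩
      · simp only [ind, hLdef, link, mem_filter] at he ⊢
        refine ⟨he.1.1, fun z hz => ?_⟩
        by_cases hzB : z ∈ B
        · exact mem_union_right _ hzB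
        · exact mem_union_left _ (he.2 (mem_sdiff.2 ⟨hz, hzB⟩))
    have h5 := card_le_card h4
    rw [card_insert_of_notMem hnot] at h5
    omega
  have hcard := card_le_of_sparse hL hsparse (by omega)
  -- the degree sum
  have hsum : ∑ v ∈ B, deg H v = ∑ e ∈ H, (e ∩ B).card := by
    unfold deg
    simp only [card_filter]
    rw [sum_comm]
    refine sum_congr rfl fun e _ => ?_
    rw [← sum_filter, card_eq_sum_ones]
    apply sum_congr _ (fun _ _ => rfl)
    ext v
    simp only [mem_filter, mem_inter]
    tauto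
  set M := H.filter (fun e => 2 ≤ (e ∩ B).card) with hM
  have hMle : M.card ≤ 6 * k := by
    have hsub : M ⊆ B.offDiag.biUnion (fun p => H.filter (fun e => p.1 ∈ e ∧ p.2 ∈ e)) := by
      intro e he
      rw [hM, mem_filter] at he
      obtain ⟨a, ha, b, hb, hab⟩ := one_lt_card.1 (show 1 < (e ∩ B).card by omega)
      rw [mem_inter] at ha hb
      rw [mem_biUnion]
      exact ⟨(a, b), by rw [mem_offDiag]; exact ⟨ha.2, hb.2, hab⟩,
        by rw [mem_filter]; exact ⟨he.1, ha.1, hb.1⟩⟩
    refine le_trans (card_le_card hsub) ?_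
    refine le_trans (card_biUnion_le_card_mul _ _ k ?_) ?_
    · intro p hp
      rw [mem_offDiag] at hp
      exact codeg_le h3 hH hk (by omega) hp.2.2
    · rw [offDiag_card, hBc]
  have hle : ∑ e ∈ H, (e ∩ B).card ≤ L.card + 3 * M.card := by
    have h1 : ∀ e ∈ H, (e ∩ B).card ≤ (if (e ∩ B).card = 1 then 1 else 0) +
        3 * (if 2 ≤ (e ∩ B).card then 1 else 0) := by
      intro e _
      have : (e ∩ B).card ≤ 3 := by rw [← hBc]; exact card_le_card inter_subset_right
      split_ifs <;> omega
    refine le_trans (sum_le_sum h1) ?_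
    rw [sum_add_distrib, ← mul_sum, ← card_filter, ← card_filter]
    exact le_rfl
  have hfin : ∑ v ∈ B, deg H v ≤ L.card + 18 * k := by
    rw [hsum]; omega
  have hfinQ : (∑ v ∈ B, (deg H v : ℚ)) ≤ (L.card : ℚ) + 18 * k := by exact_mod_cast hfin
  have hk3 : ((k - 3 : ℕ) : ℚ) = (k : ℚ) - 3 := by
    rw [Nat.cast_sub (by omega)]; norm_num
  rw [hk3] at hcard
  have e1 : ((k : ℚ) - 3 - 2) / ((k : ℚ) - 3 - 1) = ((k : ℚ) - 5) / ((k : ℚ) - 4) := by
    congr 1 <;> ring
  rw [e1] at hcard
  linarith

/-- The density bound over an arbitrary vertex set. -/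
theorem density_bound {k : ℕ} {H : Finset (Finset V)} (h3 : ∀ e ∈ H, e.card = 3)
    (hH : BESFree k H) (hk : k ≤ Fintype.card V) (hk6 : 6 ≤ k) :
    (H.card : ℚ) ≤ ((k : ℚ) - 5) / (9 * ((k : ℚ) - 4)) * (Fintype.card V : ℚ) ^ 2
      + 19 * k / 9 * (Fintype.card V : ℚ) := by
  set n : ℚ := (Fintype.card V : ℚ) with hn
  have hkQ : (6 : ℚ) ≤ (k : ℚ) := by exact_mod_cast hk6
  -- the sum of the degrees
  have hdeg : ∑ v, (deg H v : ℚ) = 3 * H.card := by
    have h1 : ∑ v, deg H v = 3 * H.card := by
      unfold deg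
      simp only [card_filter]
      rw [sum_comm]
      have : ∀ e ∈ H, (∑ v, if v ∈ e then 1 else 0) = 3 := by
        intro e he
        rw [← card_filter]
        have : univ.filter (fun v => v ∈ e) = e := by ext; simp
        rw [this, h3 e he]
      rw [sum_congr rfl this, sum_const, smul_eq_mul, mul_comm]
    exact_mod_cast h1
  have hsq : ∑ e ∈ H, ∑ v ∈ e, (deg H v : ℚ) = ∑ v, (deg H v : ℚ) ^ 2 := by
    have h1 : ∀ e ∈ H, ∑ v ∈ e, (deg H v : ℚ) = ∑ v, if v ∈ e then (deg H v : ℚ) else 0 := by
      intro e _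
      rw [← sum_filter]
      apply sum_congr _ (fun _ _ => rfl)
      ext; simp
    rw [sum_congr rfl h1, sum_comm]
    refine sum_congr rfl fun v _ => ?_
    rw [← sum_filter, sum_const, nsmul_eq_mul, sq]
    rfl
  have hcs : (∑ v, (deg H v : ℚ)) ^ 2 ≤ n * ∑ v, (deg H v : ℚ) ^ 2 := by
    have := sq_sum_le_card_mul_sum_sq (s := (univ : Finset V)) (f := fun v => (deg H v : ℚ))
    rw [card_univ] at this
    exact this
  have hup : ∑ e ∈ H, ∑ v ∈ e, (deg H v : ℚ) ≤
      H.card * (((k : ℚ) - 5) / ((k : ℚ) - 4) * n + 19 * k) := by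
    have := sum_le_card_nsmul H (fun e => ∑ v ∈ e, (deg H v : ℚ)) _
      (fun e he => deg_edge h3 hH hk hk6 he)
    rw [nsmul_eq_mul] at this
    exact this
  rw [hdeg] at hcs
  rw [hsq] at hup
  have hn0 : 0 ≤ n := by positivity
  rcases Nat.eq_zero_or_pos H.card with h0 | h0
  · rw [h0]
    have e1 : (0 : ℚ) ≤ ((k : ℚ) - 5) / (9 * ((k : ℚ) - 4)) := by
      apply div_nonneg <;> linarith
    positivity
  · have hH0 : (0 : ℚ) < (H.card : ℚ) := by exact_mod_cast h0
    have h1 : (3 * (H.card : ℚ)) ^ 2 ≤
        n * (H.card * (((k : ℚ) - 5) / ((k : ℚ) - 4) * n + 19 * k)) :=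
      le_trans hcs (mul_le_mul_of_nonneg_left hup hn0)
    have h2 : 9 * (H.card : ℚ) ≤ n * (((k : ℚ) - 5) / ((k : ℚ) - 4) * n + 19 * k) := by
      have h3 : (H.card : ℚ) * (9 * (H.card : ℚ)) ≤
          (H.card : ℚ) * (n * (((k : ℚ) - 5) / ((k : ℚ) - 4) * n + 19 * k)) := by
        calc (H.card : ℚ) * (9 * (H.card : ℚ)) = (3 * (H.card : ℚ)) ^ 2 := by ring
          _ ≤ _ := h1
          _ = _ := by ring
      exact le_of_mul_le_mul_left h3 hH0
    have h4 : ((k : ℚ) - 5) / (9 * ((k : ℚ) - 4)) = (((k : ℚ) - 5) / ((k : ℚ) - 4)) / 9 := by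
      rw [div_div, mul_comm]
    rw [h4]
    linarith

end Pool.Agent.MP_c82047_co
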