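import Mathlib

/-!
Growing sets of vertices spanning many edges from a small core, in a 3-uniform hypergraph.
-/

namespace Pool.Agent.MP_c82047_co

open Finset

variable {V : Type*} [Fintype V] [DecidableEq V]

/-- the edges contained in `S` -/
def spanned (E : Finset (Finset V)) (S : Finset V) : Finset (Finset V) := E.filter (fun e => e ⊆ S)

/-- the neighbourhood of `y` in the shadow of `E`: the vertices other than `y` lying in a common
edge with `y` -/
def nbhd (E : Finset (Finset V)) (y : V) : Finset V :=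
  univ.filter (fun x => x ≠ y ∧ ∃ e ∈ E, x ∈ e ∧ y ∈ e)

theorem mem_nbhd {E : Finset (Finset V)} {x y : V} :
    x ∈ nbhd E y ↔ x ≠ y ∧ ∃ e ∈ E, x ∈ e ∧ y ∈ e := by
  simp [nbhd]

theorem nbhd_comm {E : Finset (Finset V)} {x y : V} : x ∈ nbhd E y ↔ y ∈ nbhd E x := by
  rw [mem_nbhd, mem_nbhd]
  constructor
  · rintro ⟨h, e, he, hx, hy⟩
    exact ⟨h.symm, e, he, hy, hx⟩
  · rintro ⟨h, e, he, hx, hy⟩
    exact ⟨h.symm, e, he, hy, hx⟩

/-- two vertices outside `K` are adjacent when an edge contains them and a vertex of `K` -/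
def Lk (E : Finset (Finset V)) (K : Finset V) : SimpleGraph V where
  Adj u v := u ≠ v ∧ u ∉ K ∧ v ∉ K ∧ ∃ e ∈ E, u ∈ e ∧ v ∈ e ∧ ∃ w ∈ K, w ∈ e
  symm := ⟨fun _ _ ⟨h1, h2, h3, e, he, hu, hv, hw⟩ => ⟨h1.symm, h3, h2, e, he, hv, hu, hw⟩⟩
  loopless := ⟨fun _ h => h.1 rfl⟩

/-- number of edges spanned by `S` and the core -/
def psi (E : Finset (Finset V)) (K S : Finset V) : ℕ := (spanned E (S ∪ K)).card

/-- closed under adjacency -/
def Closed (E : Finset (Finset V)) (K S : Finset V) : Prop :=
  ∀ u ∈ S, ∀ v, (Lk E K).Adj u v → v ∈ S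

theorem closed_reachable {E : Finset (Finset V)} {K S : Finset V} (hS : Closed E K S) {u v : V}
    (hu : u ∈ S) (h : (Lk E K).Reachable u v) : v ∈ S := by
  obtain ⟨p⟩ := h
  induction p with
  | nil => exact hu
  | cons hadj _ ih => exact ih (hS _ hu _ hadj)

theorem psi_mono {E : Finset (Finset V)} {K S T : Finset V} (h : S ⊆ T) :
    psi E K S ≤ psi E K T := by
  unfold psi spanned
  apply card_le_card
  intro e he
  rw [mem_filter] at he ⊢
  exact ⟨he.1, he.2.trans (union_subset_union_left h)⟩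

theorem edge_eq {e : Finset V} (he : e.card = 3) {u v w : V} (huv : u ≠ v) (huw : u ≠ w)
    (hvw : v ≠ w) (hu : u ∈ e) (hv : v ∈ e) (hw : w ∈ e) : e = {u, v, w} := by
  symm
  apply eq_of_subset_of_card_le
  · intro x hx
    simp only [mem_insert, mem_singleton] at hx
    rcases hx with rfl | rfl | rfl <;> assumption
  · rw [he, card_eq_three.mpr ⟨u, v, w, huv, huw, hvw, rfl⟩]

theorem grow_one {E : Finset (Finset V)} (hE : ∀ e ∈ E, e.card = 3) {K S : Finset V} {u v : V}
    (hu : u ∈ S) (hadj : (Lk E K).Adj u v) (hv : v ∉ S) :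
    psi E K S + 1 ≤ psi E K (insert v S) := by
  obtain ⟨huv, huK, hvK, e, he, hue, hve, w, hwK, hwe⟩ := hadj
  have huw : u ≠ w := fun h => huK (h ▸ hwK)
  have hvw : v ≠ w := fun h => hvK (h ▸ hwK)
  have heq := edge_eq (hE e he) huv huw hvw hue hve hwe
  unfold psi
  apply card_lt_card
  rw [ssubset_iff_of_subset]
  · refine ⟨e, ?_, ?_⟩
    · unfold spanned
      rw [mem_filter]
      refine ⟨he, ?_⟩
      rw [heq]
      intro x hx
      simp only [mem_insert, mem_singleton] at hx
      rw [mem_union, mem_insert]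
      rcases hx with rfl | rfl | rfl
      · exact Or.inl (Or.inr hu)
      · exact Or.inl (Or.inl rfl)
      · exact Or.inr hwK
    · unfold spanned
      rw [mem_filter]
      rintro ⟨_, hsub⟩
      rcases mem_union.mp (hsub hve) with h | h
      · exact hv h
      · exact hvK h
  · intro f hf
    unfold spanned at hf ⊢
    rw [mem_filter] at hf ⊢
    exact ⟨hf.1, hf.2.trans (union_subset_union_left (subset_insert _ _))⟩

theorem closed_count {E : Finset (Finset V)} (hE : ∀ e ∈ E, e.card = 3) {K S S0 : Finset V}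
    (hSK : Disjoint S K) (hSS0 : Disjoint S S0) (hS : Closed E K S) :
    2 * psi E K S0 + ∑ u ∈ S, (K ∩ nbhd E u).card ≤ 2 * psi E K (S0 ∪ S) := by
  classical
  set P : Finset (V × V) := (S ×ˢ K).filter (fun p => p.2 ∈ nbhd E p.1) with hP
  have hPcard : P.card = ∑ u ∈ S, (K ∩ nbhd E u).card := by
    rw [hP, card_filter, sum_product]
    refine sum_congr rfl fun u _ => ?_
    rw [← card_filter]
    congr 1
  have hch : ∀ p : V × V, ∃ e : Finset V, p ∈ P → e ∈ E ∧ p.1 ∈ e ∧ p.2 ∈ e := by
    intro p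
    by_cases hp : p ∈ P
    · rw [hP, mem_filter, mem_nbhd] at hp
      obtain ⟨-, -, e, he, h1, h2⟩ := hp
      exact ⟨e, fun _ => ⟨he, h2, h1⟩⟩
    · exact ⟨∅, fun h => absurd h hp⟩
  choose f hf using hch
  have hmaps : ∀ p ∈ P, f p ∈ spanned E (S0 ∪ S ∪ K) \ spanned E (S0 ∪ K) := by
    intro p hp
    obtain ⟨he, h1, h2⟩ := hf p hp
    rw [hP, mem_filter, mem_product] at hp
    obtain ⟨⟨hpS, hpK⟩, -⟩ := hp
    have hpK' : p.1 ∉ K := disjoint_left.mp hSK hpS
    have hp12 : p.1 ≠ p.2 := fun h => hpK' (h ▸ hpK)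
    unfold spanned
    rw [mem_sdiff, mem_filter, mem_filter]
    refine ⟨⟨he, ?_⟩, ?_⟩
    · intro x hx
      by_cases hxK : x ∈ K
      · exact mem_union_right _ hxK
      · apply mem_union_left
        apply mem_union_right
        by_cases hxp : x = p.1
        · rw [hxp]; exact hpS
        · exact hS p.1 hpS x ⟨fun h => hxp h.symm, hpK', hxK, f p, he, h1, hx, p.2, hpK, h2⟩
    · rintro ⟨-, hsub⟩
      rcases mem_union.mp (hsub h1) with h | h
      · exact disjoint_left.mp hSS0 hpS h
      · exact hpK' h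
  have hfib : ∀ e ∈ spanned E (S0 ∪ S ∪ K) \ spanned E (S0 ∪ K),
      (P.filter (fun p => f p = e)).card ≤ 2 := by
    intro e he
    have hsub : P.filter (fun p => f p = e) ⊆ (e ∩ S) ×ˢ (e ∩ K) := by
      intro p hp
      rw [mem_filter] at hp
      obtain ⟨hpP, rfl⟩ := hp
      obtain ⟨-, h1, h2⟩ := hf p hpP
      rw [hP, mem_filter, mem_product] at hpP
      rw [mem_product, mem_inter, mem_inter]
      exact ⟨⟨h1, hpP.1.1⟩, ⟨h2, hpP.1.2⟩⟩
    have h3 : e.card = 3 := by
      rw [mem_sdiff] at he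
      unfold spanned at he
      exact hE e (mem_filter.mp he.1).1
    have h4 : (e ∩ S).card + (e ∩ K).card ≤ 3 := by
      rw [← h3, ← card_union_of_disjoint]
      · exact card_le_card (union_subset inter_subset_left inter_subset_left)
      · exact hSK.mono inter_subset_right inter_subset_right
    refine (card_le_card hsub).trans ?_
    rw [card_product]
    generalize (e ∩ S).card = a at h4 ⊢
    generalize (e ∩ K).card = b at h4 ⊢
    have ha : a ≤ 3 := by omega
    interval_cases a
    · omega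
    · omega
    · omega
    · have : b = 0 := by omega
      subst this
      simp
  have h5 := card_le_mul_card_image_of_maps_to hmaps 2 hfib
  have h6 : spanned E (S0 ∪ K) ⊆ spanned E (S0 ∪ S ∪ K) := by
    intro e he
    unfold spanned at he ⊢
    rw [mem_filter] at he ⊢
    exact ⟨he.1, he.2.trans (union_subset_union_left subset_union_left)⟩
  rw [card_sdiff_of_subset h6, hPcard] at h5
  have h7 := card_le_card h6
  unfold psi
  omega

/-- The structure of the components of the link graph of a core. -/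
theorem exists_core {E : Finset (Finset V)} (hE : ∀ e ∈ E, e.card = 3) {k : ℕ}
    (hfree : ∀ S : Finset V, S.card = k → (spanned E S).card + 3 < k) {K : Finset V}
    (hKk : K.card ≤ k) (hK : K.card ≤ (spanned E K).card + 2) :
    ∃ S0 : Finset V, Disjoint S0 K ∧ S0.card + K.card < k ∧ Closed E K S0 ∧
      ∀ u, u ∉ S0 → u ∉ K → ∃ C : Finset V, (∀ v, v ∈ C ↔ (Lk E K).Reachable u v) ∧
        Disjoint C S0 ∧ Disjoint C K ∧ C.card + K.card < k ∧
        ∑ v ∈ C, (K ∩ nbhd E v).card + 2 ≤ 2 * C.card := by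
  classical
  set b := psi E K ∅ with hb
  have hKb : K.card ≤ b + 2 := by
    rw [hb]
    unfold psi
    rw [empty_union]
    exact hK
  set 𝒮 : Finset (Finset V) := univ.filter (fun S => Disjoint S K ∧ S.card + K.card ≤ k ∧
    S.card + b ≤ psi E K S) with h𝒮
  have hne : 𝒮.Nonempty := ⟨∅, by
    rw [h𝒮, mem_filter]
    refine ⟨mem_univ _, disjoint_empty_left _, ?_, ?_⟩
    · simpa using hKk
    · simp [hb]⟩
  obtain ⟨S0, hS0, hmax⟩ := exists_max_image 𝒮 card hne
  have hS0' := hS0
  rw [h𝒮, mem_filter] at hS0'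
  obtain ⟨-, hS0K, hS0k, hS0b⟩ := hS0'
  have hfree' : ∀ S : Finset V, Disjoint S K → S.card + K.card = k → psi E K S + 3 < k := by
    intro S hSK hSk
    apply hfree
    rw [card_union_of_disjoint hSK]
    exact hSk
  have hlt : S0.card + K.card < k := by
    rcases lt_or_eq_of_le hS0k with h | h
    · exact h
    · have := hfree' S0 hS0K h
      omega
  have hclosed : Closed E K S0 := by
    intro u hu v hadj
    by_contra hv
    have h1 := grow_one hE hu hadj hv
    have h2 : insert v S0 ∈ 𝒮 := by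
      rw [h𝒮, mem_filter]
      refine ⟨mem_univ _, ?_, ?_, ?_⟩
      · rw [disjoint_insert_left]
        exact ⟨hadj.2.2.1, hS0K⟩
      · rw [card_insert_of_notMem hv]
        omega
      · rw [card_insert_of_notMem hv]
        omega
    have h3 := hmax _ h2
    rw [card_insert_of_notMem hv] at h3
    omega
  refine ⟨S0, hS0K, hlt, hclosed, ?_⟩
  intro u huS0 huK
  set C : Finset V := univ.filter (fun v => (Lk E K).Reachable u v) with hC
  have hCmem : ∀ v, v ∈ C ↔ (Lk E K).Reachable u v := fun v => by rw [hC, mem_filter]; simp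
  have hCS0 : Disjoint C S0 := by
    rw [disjoint_left]
    intro v hv hvS0
    rw [hCmem] at hv
    exact huS0 (closed_reachable hclosed hvS0 hv.symm)
  have hKc : Closed E K (univ \ K) := by
    intro a _ c hadj
    rw [mem_sdiff]
    exact ⟨mem_univ _, hadj.2.2.1⟩
  have hCK : Disjoint C K := by
    rw [disjoint_left]
    intro v hv hvK
    rw [hCmem] at hv
    have := closed_reachable hKc (mem_sdiff.mpr ⟨mem_univ u, huK⟩) hv
    exact (mem_sdiff.mp this).2 hvK
  set 𝒯 : Finset (Finset V) := C.powerset.filter (fun T => u ∈ T ∧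
    psi E K S0 + T.card ≤ psi E K (S0 ∪ T) + 1 ∧ S0.card + T.card + K.card ≤ k) with h𝒯
  have hne' : 𝒯.Nonempty := ⟨{u}, by
    rw [h𝒯, mem_filter, mem_powerset]
    refine ⟨?_, mem_singleton_self u, ?_, ?_⟩
    · rw [singleton_subset_iff, hCmem]
    · rw [card_singleton]
      exact Nat.add_le_add_right (psi_mono subset_union_left) 1
    · rw [card_singleton]
      omega⟩
  obtain ⟨T, hT, hTmax⟩ := exists_max_image 𝒯 card hne'
  rw [h𝒯, mem_filter, mem_powerset] at hT
  obtain ⟨hTC, huT, hTpsi, hTk⟩ := hT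
  have hTS0 : Disjoint S0 T := (hCS0.mono_left hTC).symm
  have hTK : Disjoint T K := hCK.mono_left hTC
  have hTlt : S0.card + T.card + K.card < k := by
    rcases lt_or_eq_of_le hTk with h | h
    · exact h
    · have h1 : Disjoint (S0 ∪ T) K := disjoint_union_left.mpr ⟨hS0K, hTK⟩
      have h2 := hfree' (S0 ∪ T) h1 (by rw [card_union_of_disjoint hTS0]; exact h)
      omega
  have hTclosed : Closed E K T := by
    intro a ha c hadj
    by_contra hc
    have hcC : c ∈ C := by
      rw [hCmem]
      exact ((hCmem a).mp (hTC ha)).trans (SimpleGraph.Adj.reachable hadj)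
    have hcS0 : c ∉ S0 := disjoint_left.mp hCS0 hcC
    have h1 := grow_one hE (mem_union_right S0 ha) hadj
      (show c ∉ S0 ∪ T by rw [mem_union]; tauto)
    have h2 : insert c T ∈ 𝒯 := by
      rw [h𝒯, mem_filter, mem_powerset]
      refine ⟨insert_subset hcC hTC, mem_insert_of_mem huT, ?_, ?_⟩
      · rw [card_insert_of_notMem hc, union_insert]
        omega
      · rw [card_insert_of_notMem hc]
        omega
    have h3 := hTmax _ h2
    rw [card_insert_of_notMem hc] at h3
    omega
  have hTeq : T = C := by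
    apply subset_antisymm hTC
    intro v hv
    exact closed_reachable hTclosed huT ((hCmem v).mp hv)
  subst hTeq
  refine ⟨C, hCmem, hCS0, hCK, by omega, ?_⟩
  have hcount := closed_count hE hTK hCS0 hTclosed
  have hnot : S0 ∪ C ∉ 𝒮 := by
    intro h
    have h1 := hmax _ h
    rw [card_union_of_disjoint hTS0] at h1
    have h2 : 0 < C.card := card_pos.mpr ⟨u, huT⟩
    omega
  rw [h𝒮, mem_filter] at hnot
  have hψ : psi E K (S0 ∪ C) < S0.card + C.card + b := by
    by_contra hge
    push Not at hge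
    apply hnot
    refine ⟨mem_univ _, disjoint_union_left.mpr ⟨hS0K, hTK⟩, ?_, ?_⟩
    · rw [card_union_of_disjoint hTS0]
      exact hTk
    · rw [card_union_of_disjoint hTS0]
      exact hge
  omega

end Pool.Agent.MP_c82047_co
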