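import Mathlib

/-!
The one-inclusion graph of a set family of VC-dimension `d` has at most `d` times as many edges
as vertices.
-/

namespace Pool.Agent.MP_c82047_co

open Finset

variable {ι : Type*} [DecidableEq ι]

/-- all shattered sets have at most `d` elements -/
def VCle (𝒬 : Finset (Finset ι)) (d : ℕ) : Prop := ∀ S, 𝒬.Shatters S → S.card ≤ d

/-- number of edges of the one-inclusion graph in the directions of `U` -/
def incl (U : Finset ι) (𝒬 : Finset (Finset ι)) : ℕ :=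
  ∑ i ∈ U, (𝒬.filter (fun Q => i ∉ Q ∧ insert i Q ∈ 𝒬)).card

theorem dir_split {a i : ι} (hia : i ≠ a) (𝒬 : Finset (Finset ι)) :
    (𝒬.filter (fun Q => i ∉ Q ∧ insert i Q ∈ 𝒬)).card
      = ((nonMemberSubfamily a 𝒬).filter
          (fun Q => i ∉ Q ∧ insert i Q ∈ nonMemberSubfamily a 𝒬)).card
        + ((memberSubfamily a 𝒬).filter
          (fun Q => i ∉ Q ∧ insert i Q ∈ memberSubfamily a 𝒬)).card := by
  rw [← card_filter_add_card_filter_not (s := 𝒬.filter (fun Q => i ∉ Q ∧ insert i Q ∈ 𝒬))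
    (fun Q => a ∉ Q)]
  congr 1
  · congr 1
    ext Q
    simp only [mem_filter, mem_nonMemberSubfamily, mem_insert]
    constructor
    · rintro ⟨⟨h1, h2, h3⟩, h4⟩
      exact ⟨⟨h1, h4⟩, h2, h3, by rintro (h | h); exacts [hia h.symm, h4 h]⟩
    · rintro ⟨⟨h1, h4⟩, h2, h3, -⟩
      exact ⟨⟨h1, h2, h3⟩, h4⟩
  · refine card_bij' (fun Q _ => Q.erase a) (fun Q _ => insert a Q) ?_ ?_ ?_ ?_
    · intro Q hQ
      simp only [mem_filter, not_not] at hQ
      obtain ⟨⟨h1, h2, h3⟩, h4⟩ := hQ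
      simp only [mem_filter, mem_memberSubfamily, mem_erase, mem_insert, not_and]
      refine ⟨⟨by rwa [insert_erase h4], by simp⟩, fun _ => h2, ?_, ?_⟩
      · rw [Finset.insert_comm, insert_erase h4]
        exact h3
      · rintro (h | ⟨h, -⟩)
        · exact hia h.symm
        · exact h rfl
    · intro Q hQ
      simp only [mem_filter, mem_memberSubfamily, mem_insert] at hQ
      obtain ⟨⟨h1, h2⟩, h3, h4, h5⟩ := hQ
      simp only [mem_filter, mem_insert, not_not]
      refine ⟨⟨h1, ?_, ?_⟩, by simp⟩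
      · rintro (h | h)
        · exact hia h
        · exact h3 h
      · rwa [Finset.insert_comm]
    · intro Q hQ
      simp only [mem_filter, not_not] at hQ
      exact insert_erase hQ.2
    · intro Q hQ
      simp only [mem_filter, mem_memberSubfamily] at hQ
      exact erase_insert hQ.1.2

theorem dir_submod (i : ι) (𝒜 ℬ : Finset (Finset ι)) :
    (𝒜.filter (fun Q => i ∉ Q ∧ insert i Q ∈ 𝒜)).card
      + (ℬ.filter (fun Q => i ∉ Q ∧ insert i Q ∈ ℬ)).card
    ≤ ((𝒜 ∪ ℬ).filter (fun Q => i ∉ Q ∧ insert i Q ∈ 𝒜 ∪ ℬ)).card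
      + ((𝒜 ∩ ℬ).filter (fun Q => i ∉ Q ∧ insert i Q ∈ 𝒜 ∩ ℬ)).card := by
  rw [← card_union_add_card_inter]
  refine Nat.add_le_add (card_le_card ?_) (card_le_card ?_)
  · intro Q
    simp only [mem_union, mem_filter]
    tauto
  · intro Q
    simp only [mem_inter, mem_filter]
    tauto

theorem incl_insert {a : ι} {U : Finset ι} (ha : a ∉ U) (𝒬 : Finset (Finset ι)) :
    incl (insert a U) 𝒬 ≤ (nonMemberSubfamily a 𝒬 ∩ memberSubfamily a 𝒬).card
      + incl U (nonMemberSubfamily a 𝒬 ∪ memberSubfamily a 𝒬)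
      + incl U (nonMemberSubfamily a 𝒬 ∩ memberSubfamily a 𝒬) := by
  unfold incl
  rw [sum_insert ha]
  have h1 : (𝒬.filter (fun Q => a ∉ Q ∧ insert a Q ∈ 𝒬)).card
      ≤ (nonMemberSubfamily a 𝒬 ∩ memberSubfamily a 𝒬).card := by
    apply card_le_card
    intro Q
    simp only [mem_filter, mem_inter, mem_nonMemberSubfamily, mem_memberSubfamily]
    tauto
  have h2 : ∑ i ∈ U, (𝒬.filter (fun Q => i ∉ Q ∧ insert i Q ∈ 𝒬)).card
      ≤ ∑ i ∈ U, ((((nonMemberSubfamily a 𝒬 ∪ memberSubfamily a 𝒬).filter (fun Q => i ∉ Q ∧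
          insert i Q ∈ nonMemberSubfamily a 𝒬 ∪ memberSubfamily a 𝒬)).card)
        + ((nonMemberSubfamily a 𝒬 ∩ memberSubfamily a 𝒬).filter (fun Q => i ∉ Q ∧
          insert i Q ∈ nonMemberSubfamily a 𝒬 ∩ memberSubfamily a 𝒬)).card) := by
    refine sum_le_sum fun i hi => ?_
    have hia : i ≠ a := fun h => ha (h ▸ hi)
    rw [dir_split hia]
    exact dir_submod i _ _
  rw [sum_add_distrib] at h2
  omega

theorem vcle_union {a : ι} {𝒬 : Finset (Finset ι)} {d : ℕ} (h : VCle 𝒬 d) :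
    VCle (nonMemberSubfamily a 𝒬 ∪ memberSubfamily a 𝒬) d := by
  intro S hS
  apply h
  have haS : a ∉ S := by
    intro ha
    obtain ⟨Q, hQ, hSQ⟩ := hS (Subset.refl S)
    have haQ : a ∈ Q := by
      have : a ∈ S ∩ Q := by rw [hSQ]; exact ha
      exact (mem_inter.mp this).2
    simp only [mem_union, mem_nonMemberSubfamily, mem_memberSubfamily] at hQ
    tauto
  intro T hT
  obtain ⟨Q, hQ, hSQ⟩ := hS hT
  simp only [mem_union, mem_nonMemberSubfamily, mem_memberSubfamily] at hQ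
  rcases hQ with hQ | hQ
  · exact ⟨Q, hQ.1, hSQ⟩
  · exact ⟨insert a Q, hQ.1, by rw [inter_insert_of_notMem haS]; exact hSQ⟩

theorem vcle_inter {a : ι} {𝒬 : Finset (Finset ι)} {d : ℕ} (h : VCle 𝒬 (d + 1)) :
    VCle (nonMemberSubfamily a 𝒬 ∩ memberSubfamily a 𝒬) d := by
  intro S hS
  have haS : a ∉ S := by
    intro ha
    obtain ⟨Q, hQ, hSQ⟩ := hS (Subset.refl S)
    have haQ : a ∈ Q := by
      have : a ∈ S ∩ Q := by rw [hSQ]; exact ha
      exact (mem_inter.mp this).2
    simp only [mem_inter, mem_nonMemberSubfamily, mem_memberSubfamily] at hQ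
    tauto
  have h1 : 𝒬.Shatters (insert a S) := by
    intro T hT
    rw [subset_insert_iff] at hT
    obtain ⟨Q, hQ, hSQ⟩ := hS hT
    simp only [mem_inter, mem_nonMemberSubfamily, mem_memberSubfamily] at hQ
    by_cases haT : a ∈ T
    · refine ⟨insert a Q, hQ.2.1, ?_⟩
      rw [← insert_inter_distrib, hSQ, insert_erase haT]
    · refine ⟨Q, hQ.1.1, ?_⟩
      rw [insert_inter_of_notMem hQ.1.2, hSQ, erase_eq_self.mpr haT]
  have h2 := h _ h1
  rw [card_insert_of_notMem haS] at h2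
  omega

theorem inter_empty {a : ι} {𝒬 : Finset (Finset ι)} (h : VCle 𝒬 0) :
    nonMemberSubfamily a 𝒬 ∩ memberSubfamily a 𝒬 = ∅ := by
  rw [eq_empty_iff_forall_notMem]
  intro Q hQ
  simp only [mem_inter, mem_nonMemberSubfamily, mem_memberSubfamily] at hQ
  have h1 : 𝒬.Shatters {a} := by
    intro T hT
    rw [subset_singleton_iff] at hT
    rcases hT with rfl | rfl
    · exact ⟨Q, hQ.1.1, by rw [singleton_inter_of_notMem hQ.1.2]⟩
    · exact ⟨insert a Q, hQ.2.1, by rw [singleton_inter_of_mem (mem_insert_self _ _)]⟩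
  have h2 := h _ h1
  simp at h2

theorem incl_le (U : Finset ι) : ∀ (𝒬 : Finset (Finset ι)) (d : ℕ), VCle 𝒬 d →
    incl U 𝒬 ≤ d * 𝒬.card := by
  induction U using Finset.induction_on with
  | empty =>
    intro 𝒬 d _
    simp [incl]
  | insert a U ha ih =>
    intro 𝒬 d h
    refine (incl_insert ha 𝒬).trans ?_
    have h1 := ih _ _ (vcle_union (a := a) h)
    have hcard : (nonMemberSubfamily a 𝒬 ∪ memberSubfamily a 𝒬).card
        + (nonMemberSubfamily a 𝒬 ∩ memberSubfamily a 𝒬).card = 𝒬.card := by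
      rw [card_union_add_card_inter, add_comm]
      exact card_memberSubfamily_add_card_nonMemberSubfamily a 𝒬
    rcases Nat.eq_zero_or_pos d with rfl | hd
    · rw [inter_empty h]
      simp only [card_empty, zero_mul, Nat.le_zero] at h1 ⊢
      rw [h1]
      simp [incl]
    · obtain ⟨d', rfl⟩ : ∃ d', d = d' + 1 := ⟨d - 1, by omega⟩
      have h2 := ih _ _ (vcle_inter (a := a) h)
      rw [← hcard]
      nlinarith

end Pool.Agent.MP_c82047_co
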