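import Pool.Agent.Lib.MP_c82047_co.Packing

/-!
Haussler's packing lemma: a `Δ`-separated family of VC-dimension at most `d` on `n` points has at
most `2 (5 e n / Δ) ^ d` members.
-/

namespace Pool.Agent.MP_c82047_co

open Finset

theorem sum_choose_le {d s : ℕ} (hd : 1 ≤ d) (hds : d ≤ s) :
    ((∑ i ∈ Iic d, s.choose i : ℕ) : ℝ) ≤ (Real.exp 1 * (s / d)) ^ d := by
  have hd0 : (0 : ℝ) < d := by exact_mod_cast hd
  have hs0 : (0 : ℝ) < s := by exact_mod_cast lt_of_lt_of_le hd hds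
  set x : ℝ := d / s with hx
  have hx0 : 0 < x := div_pos hd0 hs0
  have hx1 : x ≤ 1 := by
    rw [hx, div_le_one hs0]
    exact_mod_cast hds
  have h1 : ((∑ i ∈ Iic d, s.choose i : ℕ) : ℝ) * x ^ d ≤ Real.exp d := by
    calc ((∑ i ∈ Iic d, s.choose i : ℕ) : ℝ) * x ^ d
        = ∑ i ∈ Iic d, (s.choose i : ℝ) * x ^ d := by
          push_cast
          rw [sum_mul]
      _ ≤ ∑ i ∈ Iic d, (s.choose i : ℝ) * x ^ i := by
          refine sum_le_sum fun i hi => ?_
          refine mul_le_mul_of_nonneg_left ?_ (by positivity)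
          exact pow_le_pow_of_le_one hx0.le hx1 (mem_Iic.mp hi)
      _ ≤ ∑ i ∈ range (s + 1), (s.choose i : ℝ) * x ^ i := by
          refine sum_le_sum_of_subset_of_nonneg ?_ fun _ _ _ => by positivity
          intro i hi
          rw [mem_range]
          have := mem_Iic.mp hi
          omega
      _ = (x + 1) ^ s := by
          rw [add_pow]
          refine sum_congr rfl fun i _ => ?_
          rw [one_pow, mul_one, mul_comm]
      _ ≤ (Real.exp x) ^ s := pow_le_pow_left₀ (by positivity) (Real.add_one_le_exp x) s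
      _ = Real.exp d := by
          rw [← Real.exp_nat_mul]
          congr 1
          rw [hx]
          field_simp
  have h2 : (Real.exp 1 * (s / d)) ^ d * x ^ d = Real.exp d := by
    rw [← mul_pow]
    have : Real.exp 1 * (s / d) * x = Real.exp 1 := by
      rw [hx]
      field_simp
    rw [this, ← Real.exp_nat_mul, mul_one]
  rw [← h2] at h1
  exact le_of_mul_le_mul_right h1 (pow_pos hx0 d)

variable {V : Type*} [Fintype V] [DecidableEq V]

theorem card_trace_le {𝒜 : Finset (Finset V)} {d : ℕ} (h : VCle 𝒜 d) {s : ℕ} (g : Fin s → V) :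
    (𝒜.image (tr g)).card ≤ ∑ i ∈ Iic d, s.choose i := by
  refine (card_le_card_shatterer _).trans (card_shatterer_le_sum_vcDim.trans ?_)
  rw [Fintype.card_fin]
  refine sum_le_sum_of_subset ?_
  apply Iic_subset_Iic.mpr
  unfold vcDim
  refine Finset.sup_le fun S hS => ?_
  exact vcle_trace h g S (mem_shatterer.mp hS)

/-- Haussler's packing lemma. -/
theorem packing {𝒜 : Finset (Finset V)} {d Δ : ℕ} (h : VCle 𝒜 d) (hd : 1 ≤ d) (hΔ1 : 1 ≤ Δ)
    (hΔn : Δ ≤ Fintype.card V)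
    (hΔ : ∀ A ∈ 𝒜, ∀ B ∈ 𝒜, A ≠ B → Δ ≤ (A \ B).card + (B \ A).card) :
    (𝒜.card : ℝ) ≤ 2 * (5 * Real.exp 1 * (Fintype.card V / Δ)) ^ d := by
  set n := Fintype.card V with hn
  have hn1 : 1 ≤ n := hΔ1.trans hΔn
  set s : ℕ := (4 * n * d) / Δ + 1 with hs
  have hs1 : 4 * n * d ≤ s * Δ := by
    have := Nat.div_add_mod (4 * n * d) Δ
    have h2 := Nat.mod_lt (4 * n * d) (show 0 < Δ by omega)
    rw [hs]
    nlinarith
  have hs2 : (s : ℝ) ≤ 4 * n * d / Δ + 1 := by
    rw [hs]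
    push_cast
    have := @Nat.cast_div_le ℝ _ _ _ (4 * n * d) Δ
    push_cast at this
    linarith
  have hds : d ≤ s := by
    have h3 : 4 * d ≤ (4 * n * d) / Δ := by
      rw [Nat.le_div_iff_mul_le (by omega)]
      nlinarith
    omega
  set Φ := ∑ i ∈ Iic d, s.choose i with hΦ
  have h1 := packing_aux (κ := Fin s) h hΔ (fun g => card_trace_le h g) (by omega)
  rw [Fintype.card_fin] at h1
  have h2 : 𝒜.card ≤ 2 * Φ := by
    by_contra hlt
    push Not at hlt
    have e1 : s * (Δ * 𝒜.card) ≤ s * (Δ * Φ) + 2 * (n * (d * 𝒜.card)) := h1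
    have e2 : 4 * n * d * 𝒜.card ≤ s * Δ * 𝒜.card := Nat.mul_le_mul_right _ hs1
    have e3 : s * Δ * (2 * Φ) < s * Δ * 𝒜.card :=
      Nat.mul_lt_mul_of_pos_left hlt (by positivity)
    nlinarith
  have h3 := sum_choose_le hd hds
  have hd0 : (0 : ℝ) < d := by exact_mod_cast hd
  have hΔ0 : (0 : ℝ) < Δ := by exact_mod_cast hΔ1
  have h4 : Real.exp 1 * (s / d) ≤ 5 * Real.exp 1 * (n / Δ) := by
    have h5 : (s : ℝ) / d ≤ 5 * (n / Δ) := by
      rw [div_le_iff₀ hd0]
      refine hs2.trans ?_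
      have h6 : (1 : ℝ) ≤ n / Δ := by
        rw [le_div_iff₀ hΔ0, one_mul]
        exact_mod_cast hΔn
      have h7 : (1 : ℝ) ≤ d := by exact_mod_cast hd
      have h8 : (4 * n * d / Δ : ℝ) = 4 * (n / Δ) * d := by ring
      rw [h8]
      nlinarith
    nlinarith [Real.exp_pos 1]
  calc (𝒜.card : ℝ) ≤ 2 * (Φ : ℝ) := by exact_mod_cast h2
    _ ≤ 2 * (Real.exp 1 * (s / d)) ^ d := by linarith
    _ ≤ _ := by
        have : (Real.exp 1 * (s / d)) ^ d ≤ (5 * Real.exp 1 * (n / Δ)) ^ d :=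
          pow_le_pow_left₀ (by positivity) h4 d
        linarith

end Pool.Agent.MP_c82047_co
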