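import Pool.Agent.Lib.MP_c82047_co.Separate
import Pool.Agent.Lib.MP_c82047_co.PackingReal

/-!
The Brown–Erdős–Sós conjecture for triple systems whose shadow is close to a graph of bounded
VC-dimension.
-/

namespace Pool.Agent.Results.MP_c82047_co.NearBoundedVC

open Finset Pool.Agent.MP_c82047_co

theorem few_edges_small {n k d : ℕ} {E : Finset (Finset (Fin n))} (hE : ∀ e ∈ E, e.card = 3)
    (hnk : n < k) : (E.card : ℝ) ≤ 10 * (k : ℝ) ^ 2 * (n : ℝ) ^ (2 - 1 / ((d : ℝ) + 1)) := by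
  have h1 : E ⊆ powersetCard 3 univ := by
    intro e he
    rw [mem_powersetCard]
    exact ⟨subset_univ _, hE e he⟩
  have h2 := card_le_card h1
  rw [card_powersetCard, card_univ, Fintype.card_fin] at h2
  rcases Nat.eq_zero_or_pos n with hn | hn
  · subst hn
    have h3 : E.card = 0 := by simpa using h2
    rw [h3, Nat.cast_zero]
    positivity
  · have h3 : E.card ≤ n ^ 3 := h2.trans (Nat.choose_le_pow n 3)
    have hn1 : (1 : ℝ) ≤ n := by exact_mod_cast hn
    have h4 : (n : ℝ) ≤ (n : ℝ) ^ (2 - 1 / ((d : ℝ) + 1)) := by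
      have hd : (0 : ℝ) ≤ d := Nat.cast_nonneg d
      have h5 : (1 : ℝ) ≤ 2 - 1 / ((d : ℝ) + 1) := by
        have : 1 / ((d : ℝ) + 1) ≤ 1 := by
          rw [div_le_one (by linarith)]
          linarith
        linarith
      calc (n : ℝ) = (n : ℝ) ^ (1 : ℝ) := (Real.rpow_one _).symm
        _ ≤ _ := Real.rpow_le_rpow_of_exponent_le hn1 h5
    have hnk' : (n : ℝ) ≤ k := by exact_mod_cast hnk.le
    have h6 : (n : ℝ) ^ 2 ≤ (k : ℝ) ^ 2 := pow_le_pow_left₀ (by positivity) hnk' 2
    have h7 : (E.card : ℝ) ≤ (n : ℝ) ^ 3 := by exact_mod_cast h3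
    have h8 : (0 : ℝ) ≤ (n : ℝ) ^ (2 - 1 / ((d : ℝ) + 1)) := by positivity
    calc (E.card : ℝ) ≤ (n : ℝ) ^ 2 * n := by linarith [h7, (by ring : (n : ℝ) ^ 3 = n ^ 2 * n)]
      _ ≤ (k : ℝ) ^ 2 * (n : ℝ) ^ (2 - 1 / ((d : ℝ) + 1)) :=
          mul_le_mul h6 h4 (by positivity) (by positivity)
      _ ≤ 10 * (k : ℝ) ^ 2 * (n : ℝ) ^ (2 - 1 / ((d : ℝ) + 1)) := by
          have : (0 : ℝ) ≤ (k : ℝ) ^ 2 * (n : ℝ) ^ (2 - 1 / ((d : ℝ) + 1)) := by positivity
          nlinarith

theorem card_le_one_of_vcle_zero {V : Type*} [DecidableEq V] {𝒜 : Finset (Finset V)}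
    (h : VCle 𝒜 0) : 𝒜.card ≤ 1 := by
  rw [card_le_one]
  intro A hA B hB
  by_contra hne
  have : ∃ x, (x ∈ A ∧ x ∉ B) ∨ (x ∈ B ∧ x ∉ A) := by
    by_contra hcon
    push Not at hcon
    exact hne (Finset.ext fun x => ⟨fun hx => (hcon x).1 hx, fun hx => (hcon x).2 hx⟩)
  obtain ⟨x, hx⟩ := this
  have hsh : 𝒜.Shatters {x} := by
    intro T hT
    rw [subset_singleton_iff] at hT
    rcases hx with ⟨h1, h2⟩ | ⟨h1, h2⟩
    · rcases hT with rfl | rfl
      · exact ⟨B, hB, singleton_inter_of_notMem h2⟩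
      · exact ⟨A, hA, singleton_inter_of_mem h1⟩
    · rcases hT with rfl | rfl
      · exact ⟨A, hA, singleton_inter_of_notMem h2⟩
      · exact ⟨B, hB, singleton_inter_of_mem h1⟩
  have := h _ hsh
  rw [card_singleton] at this
  omega

theorem packing' {V : Type*} [Fintype V] [DecidableEq V] {𝒜 : Finset (Finset V)} {d Δ : ℕ}
    (h : VCle 𝒜 d) (hΔ1 : 1 ≤ Δ) (hΔn : Δ ≤ Fintype.card V)
    (hΔ : ∀ A ∈ 𝒜, ∀ B ∈ 𝒜, A ≠ B → Δ ≤ (A \ B).card + (B \ A).card) :
    (𝒜.card : ℝ) ≤ 2 * (5 * Real.exp 1 * (Fintype.card V / Δ)) ^ d := by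
  rcases Nat.eq_zero_or_pos d with hd | hd
  · subst hd
    have := card_le_one_of_vcle_zero h
    rw [pow_zero]
    have h2 : (𝒜.card : ℝ) ≤ 1 := by exact_mod_cast this
    linarith
  · exact packing h hd hΔ1 hΔn hΔ

theorem card_sdiff_triangle {V : Type*} [DecidableEq V] (A B A' B' : Finset V) :
    (A \ B).card + (B \ A).card ≤ (symmDiff A A').card + ((A' \ B').card + (B' \ A').card)
      + (symmDiff B B').card := by
  have e : ∀ X Y : Finset V, (X \ Y).card + (Y \ X).card = (symmDiff X Y).card := by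
    intro X Y
    rw [symmDiff_def, sup_eq_union, card_union_of_disjoint]
    exact disjoint_sdiff_sdiff
  rw [e, e]
  have h1 : symmDiff A B ⊆ symmDiff A A' ∪ symmDiff A' B' ∪ symmDiff B B' := by
    intro x hx
    simp only [mem_union, mem_symmDiff] at hx ⊢
    tauto
  refine (card_le_card h1).trans ((Finset.card_union_le _ _).trans ?_)
  exact Nat.add_le_add_right (Finset.card_union_le _ _) _

theorem main {n k d t : ℕ} {E : Finset (Finset (Fin n))} (hE : ∀ e ∈ E, e.card = 3)
    (hfree : ∀ S : Finset (Fin n), S.card = k → (spanned E S).card + 3 < k)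
    (B : Fin n → Finset (Fin n)) (hB : ∑ y, (symmDiff (nbhd E y) (B y)).card ≤ t)
    (hvc : (univ.image B).vcDim ≤ d) (hk : 4 ≤ k) (hkn : k ≤ n) :
    (E.card : ℝ) ≤ 10 * (k : ℝ) ^ 2 * (n : ℝ) ^ (2 - 1 / ((d : ℝ) + 1))
      + (k : ℝ) ^ 2 * n * √t := by
  classical
  have hn0 : (0 : ℝ) < n := by exact_mod_cast (show 0 < n by omega)
  have hn1 : (1 : ℝ) ≤ n := by exact_mod_cast (show 1 ≤ n by omega)
  have hk4 : (4 : ℝ) ≤ k := by exact_mod_cast hk
  set r : ℝ := (n : ℝ) ^ (1 / ((d : ℝ) + 1)) with hr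
  have hr0 : 0 < r := Real.rpow_pos_of_pos hn0 _
  have hr1 : 1 ≤ r := Real.one_le_rpow hn1 (by positivity)
  have hrd : r ^ d * r = n := by
    rw [← pow_succ, hr, ← Real.rpow_natCast, ← Real.rpow_mul hn0.le]
    have : 1 / ((d : ℝ) + 1) * ((d + 1 : ℕ) : ℝ) = 1 := by
      push_cast
      field_simp
    rw [this, Real.rpow_one]
  have hpow : (n : ℝ) ^ (2 - 1 / ((d : ℝ) + 1)) = n * r ^ d := by
    rw [Real.rpow_sub hn0, ← hr, div_eq_iff hr0.ne', mul_assoc, hrd]
    norm_num
    ring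
  rw [hpow]
  have hrd1 : 1 ≤ r ^ d := one_le_pow₀ hr1
  set x : ℝ := Real.exp 1 with hx
  have hx1 : 2 < x := by
    have := Real.exp_one_gt_d9
    linarith
  have hx2 : x < 2.7183 := by
    have := Real.exp_one_lt_d9
    linarith
  -- threshold
  set q : ℝ := √(8 * k * t) with hq
  have hq0 : 0 ≤ q := Real.sqrt_nonneg _
  have hq2 : q * q = 8 * k * t := Real.mul_self_sqrt (by positivity)
  set τ : ℝ := 20 * x * k * r ^ d + q with hτ
  have hτ2 : 2 * (k : ℝ) ≤ τ := by
    have h1 : (1 : ℝ) ≤ x * r ^ d := one_le_mul_of_one_le_of_one_le (by linarith) hrd1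
    have h2 : 2 * (k : ℝ) * 1 ≤ 2 * k * (x * r ^ d) :=
      mul_le_mul_of_nonneg_left h1 (by linarith)
    have h3 : (0 : ℝ) ≤ k * (x * r ^ d) := by positivity
    rw [hτ]
    linarith
  have hτ0 : 0 < τ := by linarith
  clear_value τ
  have hk0 : (0 : ℝ) < 4 * k := by linarith
  set Y : Finset (Fin n) := univ.filter (fun y => τ ≤ (nbhd E y).card ∧
    8 * k * ((symmDiff (nbhd E y) (B y)).card : ℝ) ≤ τ) with hY
  set Z : Finset (Fin n) := univ.filter (fun y =>
    τ < 8 * k * ((symmDiff (nbhd E y) (B y)).card : ℝ)) with hZ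
  have hYcard : (Y.card : ℝ) ≤ 2 * r ^ d := by
    rcases Y.eq_empty_or_nonempty with hYe | ⟨y0, hy0⟩
    · rw [hYe, card_empty, Nat.cast_zero]
      positivity
    · set Δ : ℕ := ⌈τ / (4 * k)⌉₊ with hΔ
      have hΔ1 : 1 ≤ Δ := by
        rw [hΔ, Nat.one_le_ceil_iff]
        positivity
      have hΔn : Δ ≤ Fintype.card (Fin n) := by
        rw [hΔ, Nat.ceil_le, Fintype.card_fin, div_le_iff₀ hk0]
        rw [hY, mem_filter] at hy0
        have h1 : ((nbhd E y0).card : ℝ) ≤ n := by
          have := card_le_univ (nbhd E y0)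
          rw [Fintype.card_fin] at this
          exact_mod_cast this
        have h2 := hy0.2.1
        have h3 : (n : ℝ) * 1 ≤ n * (4 * k) := mul_le_mul_of_nonneg_left (by linarith) hn0.le
        linarith
      have hsep : ∀ y1 ∈ Y, ∀ y2 ∈ Y, y1 ≠ y2 →
          Δ ≤ (B y1 \ B y2).card + (B y2 \ B y1).card := by
        intro y1 hy1 y2 hy2 hne
        rw [hΔ, Nat.ceil_le, div_le_iff₀ hk0]
        rw [hY, mem_filter] at hy1 hy2
        have h1 := Pool.Agent.MP_c82047_co.card_union_le hE (by omega) hfree hne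
        have h2 : (nbhd E y1).card ≤ (nbhd E y1 ∪ nbhd E y2).card :=
          card_le_card subset_union_left
        have htri := card_sdiff_triangle (nbhd E y1) (nbhd E y2) (B y1) (B y2)
        generalize (nbhd E y1 \ nbhd E y2).card + (nbhd E y2 \ nbhd E y1).card = z at h1 htri
        have h3 : (nbhd E y1).card + 3 * z + 1 ≤ k * z + k := by
          have h4 : (nbhd E y1).card ≤ (k - 3) * (z + 1) + 2 := h2.trans h1
          obtain ⟨k', rfl⟩ : ∃ k', k = k' + 3 := ⟨k - 3, by omega⟩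
          rw [Nat.add_sub_cancel] at h4
          linarith
        have h5 : ((nbhd E y1).card : ℝ) + 3 * z + 1 ≤ k * z + k := by exact_mod_cast h3
        have h6 := hy1.2.1
        have h7 : (0 : ℝ) ≤ z := Nat.cast_nonneg z
        have h8 : (z : ℝ) ≤ (symmDiff (nbhd E y1) (B y1)).card
            + (((B y1 \ B y2).card + (B y2 \ B y1).card : ℕ) : ℝ)
            + (symmDiff (nbhd E y2) (B y2)).card := by exact_mod_cast htri
        have h9 := hy1.2.2
        have h10 := hy2.2.2
        -- `k z ≥ τ / 2`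
        have h11 : τ / 2 ≤ k * z := by linarith
        have h12 : (k : ℝ) * z ≤ k * ((symmDiff (nbhd E y1) (B y1)).card
            + (((B y1 \ B y2).card + (B y2 \ B y1).card : ℕ) : ℝ)
            + (symmDiff (nbhd E y2) (B y2)).card) :=
          mul_le_mul_of_nonneg_left h8 (by linarith)
        linarith
      have hinj : Set.InjOn B Y := by
        intro y1 hy1 y2 hy2 heq
        by_contra hne
        have := hsep y1 hy1 y2 hy2 hne
        rw [heq, sdiff_self] at this
        simp at this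
        omega
      have hVC : VCle (Y.image B) d := by
        intro S hS
        exact ((hS.mono_left (image_subset_image (subset_univ _))).card_le_vcDim).trans hvc
      have hpack := packing' hVC hΔ1 hΔn (by
        intro A hA B' hB' hAB
        obtain ⟨y1, hy1, rfl⟩ := mem_image.mp hA
        obtain ⟨y2, hy2, rfl⟩ := mem_image.mp hB'
        exact hsep y1 hy1 y2 hy2 (fun h => hAB (by rw [h])))
      rw [card_image_of_injOn hinj, Fintype.card_fin] at hpack
      refine hpack.trans ?_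
      have hΔ0 : (0 : ℝ) < Δ := by exact_mod_cast hΔ1
      have h8 : 5 * x * (n / Δ) ≤ r := by
        have h9 : τ / (4 * k) ≤ Δ := Nat.le_ceil _
        rw [div_le_iff₀ hk0] at h9
        rw [← mul_div_assoc, div_le_iff₀ hΔ0]
        have h10 : (k : ℝ) * (20 * x * r ^ d) ≤ k * (4 * Δ) := by
          calc (k : ℝ) * (20 * x * r ^ d) ≤ τ := by rw [hτ]; linarith
            _ ≤ Δ * (4 * k) := h9
            _ = k * (4 * Δ) := by ring
        have h11 : 20 * x * r ^ d ≤ 4 * Δ := le_of_mul_le_mul_left h10 (by linarith)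
        have h12 := mul_le_mul_of_nonneg_right h11 hr0.le
        calc 5 * x * (n : ℝ) = (20 * x * r ^ d) * r / 4 := by rw [← hrd]; ring
          _ ≤ r * Δ := by linarith
      have h12 : (5 * x * (n / Δ)) ^ d ≤ r ^ d := pow_le_pow_left₀ (by positivity) h8 d
      linarith
  have hZcard : (Z.card : ℝ) ≤ q := by
    have h1 : (Z.card : ℝ) * τ ≤ 8 * k * t := by
      calc (Z.card : ℝ) * τ = ∑ y ∈ Z, τ := by rw [sum_const, nsmul_eq_mul]
        _ ≤ ∑ y ∈ Z, 8 * k * ((symmDiff (nbhd E y) (B y)).card : ℝ) := by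
            refine sum_le_sum fun y hy => ?_
            rw [hZ, mem_filter] at hy
            exact hy.2.le
        _ ≤ ∑ y, 8 * k * ((symmDiff (nbhd E y) (B y)).card : ℝ) :=
            sum_le_sum_of_subset_of_nonneg (subset_univ _) fun _ _ _ => by positivity
        _ = 8 * k * ∑ y, ((symmDiff (nbhd E y) (B y)).card : ℝ) := by rw [mul_sum]
        _ ≤ 8 * k * t := by
            have : ∑ y, ((symmDiff (nbhd E y) (B y)).card : ℝ) ≤ t := by exact_mod_cast hB
            exact mul_le_mul_of_nonneg_left this (by linarith)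
    have h2 : q ≤ τ := by
      rw [hτ]
      have : 0 ≤ 20 * x * k * r ^ d := by positivity
      linarith
    have h3 : (Z.card : ℝ) * τ ≤ q * τ := by
      refine h1.trans ?_
      rw [← hq2]
      exact mul_le_mul_of_nonneg_left h2 hq0
    exact le_of_mul_le_mul_right h3 hτ0
  have hdeg : ∑ u, ((nbhd E u).card : ℝ) ≤ (20 * x * k + 2) * (n * r ^ d) + 2 * q * n := by
    have h1 : ∀ u : Fin n, ((nbhd E u).card : ℝ) ≤ τ + ((if u ∈ Y then (n : ℝ) else 0)
        + if u ∈ Z then (n : ℝ) else 0) := by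
      intro u
      have hle : ((nbhd E u).card : ℝ) ≤ n := by
        have := card_le_univ (nbhd E u)
        rw [Fintype.card_fin] at this
        exact_mod_cast this
      by_cases hu : u ∈ Y
      · rw [if_pos hu]
        split_ifs
        · linarith
        · linarith
      · by_cases huZ : u ∈ Z
        · rw [if_pos huZ, if_neg hu]
          linarith
        · rw [if_neg hu, if_neg huZ]
          rw [hY, mem_filter, not_and] at hu
          rw [hZ, mem_filter, not_and] at huZ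
          have h2 := hu (mem_univ _)
          have h3 := huZ (mem_univ _)
          push Not at h2 h3
          by_contra hcon
          push Not at hcon
          have := h2 (by linarith)
          linarith
    refine (sum_le_sum fun u _ => h1 u).trans ?_
    rw [sum_add_distrib, sum_add_distrib, sum_const, card_univ, Fintype.card_fin, nsmul_eq_mul,
      ← sum_filter, ← sum_filter, sum_const, nsmul_eq_mul, sum_const, nsmul_eq_mul]
    have h2 : (univ.filter (fun u => u ∈ Y)) = Y := by ext u; simp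
    have h2' : (univ.filter (fun u => u ∈ Z)) = Z := by ext u; simp
    rw [h2, h2']
    have h3 : (Y.card : ℝ) * n ≤ 2 * r ^ d * n := mul_le_mul_of_nonneg_right hYcard hn0.le
    have h3' : (Z.card : ℝ) * n ≤ q * n := mul_le_mul_of_nonneg_right hZcard hn0.le
    have h4 : (n : ℝ) * τ = 20 * x * k * (n * r ^ d) + q * n := by rw [hτ]; ring
    rw [h4]
    linarith
  have h6 := six_card_le hE (fun u v huv => codeg_le hE hfree (by rw [Fintype.card_fin]; exact hkn)
    hk huv)
  have h7 : 6 * (E.card : ℝ) ≤ (k - 4) * ∑ u, ((nbhd E u).card : ℝ) := by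
    have h8 : ((6 * E.card : ℕ) : ℝ) ≤ (((k - 4) * ∑ u, (nbhd E u).card : ℕ) : ℝ) := by
      exact_mod_cast h6
    push_cast [Nat.cast_sub hk] at h8
    exact h8
  have h9 : (0 : ℝ) ≤ n * r ^ d := by positivity
  have h10 : (k - 4 : ℝ) * ∑ u, ((nbhd E u).card : ℝ)
      ≤ (k - 4) * ((20 * x * k + 2) * (n * r ^ d) + 2 * q * n) :=
    mul_le_mul_of_nonneg_left hdeg (by linarith)
  have h11 : ((k : ℝ) - 4) * (20 * x * k + 2) ≤ 60 * (k : ℝ) ^ 2 := by
    have a1 : x * (k : ℝ) ^ 2 ≤ 3 * (k : ℝ) ^ 2 :=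
      mul_le_mul_of_nonneg_right (by linarith) (by positivity)
    have a2 : 2 * (k : ℝ) ≤ x * k := mul_le_mul_of_nonneg_right hx1.le (by linarith)
    linarith
  have h12 : ((k : ℝ) - 4) * ((20 * x * k + 2) * (n * r ^ d)) ≤ 60 * (k : ℝ) ^ 2 * (n * r ^ d) := by
    rw [← mul_assoc]
    exact mul_le_mul_of_nonneg_right h11 h9
  -- the error term
  have hs0 : 0 ≤ √(t : ℝ) := Real.sqrt_nonneg _
  have h14 : q ≤ 3 * k * √t := by
    rw [hq]
    apply Real.sqrt_le_iff.mpr
    refine ⟨by positivity, ?_⟩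
    have ht : √(t : ℝ) * √t = t := Real.mul_self_sqrt (Nat.cast_nonneg t)
    have ht0 : (0 : ℝ) ≤ t := Nat.cast_nonneg t
    have hkk : (8 : ℝ) * k ≤ 9 * (k * k) := by
      have : (4 : ℝ) * k ≤ k * k := mul_le_mul_of_nonneg_right hk4 (by linarith)
      linarith
    calc (8 : ℝ) * k * t ≤ 9 * (k * k) * t := mul_le_mul_of_nonneg_right hkk ht0
      _ = (3 * k * √t) ^ 2 := by rw [mul_pow, mul_pow, sq (√(t : ℝ)), ht]; ring
  have h15 : ((k : ℝ) - 4) * (2 * q * n) ≤ 6 * (k ^ 2 * n * √t) := by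
    have h16 : ((k : ℝ) - 4) * (2 * q * n) ≤ k * (2 * q * n) :=
      mul_le_mul_of_nonneg_right (by linarith) (by positivity)
    have h17 : (k : ℝ) * (q * n) ≤ k * ((3 * k * √t) * n) :=
      mul_le_mul_of_nonneg_left (mul_le_mul_of_nonneg_right h14 hn0.le) (by linarith)
    linarith
  have h13 : 6 * (E.card : ℝ) ≤ 60 * (k : ℝ) ^ 2 * (n * r ^ d) + 6 * (k ^ 2 * n * √t) := by
    refine h7.trans (h10.trans ?_)
    rw [mul_add]
    exact add_le_add h12 h15
  linarith

/-- Let `E` be a family of triples on `n` vertices such that no `k` vertices span `k - 3` or more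
members of `E`. Suppose that sets `B y`, one for each vertex `y`, satisfy
`∑ y, |N(y) Δ B(y)| ≤ t`, where `N(y)` is the neighbourhood of `y` in the shadow of `E`, and that
the family of the sets `B y` has VC-dimension at most `d`.
Then `|E| ≤ 10 k² n ^ (2 - 1 / (d + 1)) + k² n √t`. -/
theorem result {n : ℕ} (k d t : ℕ) (E : Finset (Finset (Fin n))) (hE : ∀ e ∈ E, e.card = 3)
    (hfree : ∀ S : Finset (Fin n), S.card = k → (E.filter (fun e => e ⊆ S)).card + 3 < k)
    (B : Fin n → Finset (Fin n)) (hB : ∑ y, (symmDiff (nbhd E y) (B y)).card ≤ t)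
    (hvc : (univ.image B).vcDim ≤ d) :
    (E.card : ℝ) ≤ 10 * (k : ℝ) ^ 2 * (n : ℝ) ^ (2 - 1 / ((d : ℝ) + 1))
      + (k : ℝ) ^ 2 * n * √t := by
  rcases Nat.lt_or_ge n k with hnk | hkn
  · refine (few_edges_small (d := d) hE hnk).trans ?_
    have : (0 : ℝ) ≤ (k : ℝ) ^ 2 * n * √t := by positivity
    linarith
  · obtain ⟨S, -, hS⟩ := exists_subset_card_eq
      (show k ≤ (univ : Finset (Fin n)).card by rw [card_univ, Fintype.card_fin]; exact hkn)
    have h1 := hfree S hS
    exact main hE hfree B hB hvc (by omega) hkn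

end Pool.Agent.Results.MP_c82047_co.NearBoundedVC
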