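import Pool.Agent.Lib.MP_c82047_co.Inclusion

/-!
Haussler's packing lemma for set families of bounded VC-dimension.
-/

namespace Pool.Agent.MP_c82047_co

open Finset

variable {V κ : Type*} [Fintype V] [DecidableEq V] [Fintype κ] [DecidableEq κ]

/-- the trace of `A` on the sample `g` -/
def tr (g : κ → V) (A : Finset V) : Finset κ := univ.filter (fun i => g i ∈ A)

theorem mem_tr {g : κ → V} {A : Finset V} {i : κ} : i ∈ tr g A ↔ g i ∈ A := by
  simp [tr]

/-- number of members with a given trace -/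
def wt (𝒜 : Finset (Finset V)) (g : κ → V) (Q : Finset κ) : ℕ :=
  (𝒜.filter (fun A => tr g A = Q)).card

/-- weight of the one-inclusion edges in direction `i` -/
def R (𝒜 : Finset (Finset V)) (g : κ → V) (i : κ) : ℕ :=
  ∑ Q ∈ (𝒜.image (tr g)).filter (fun Q => i ∉ Q), min (wt 𝒜 g Q) (wt 𝒜 g (insert i Q))

theorem vcle_trace {𝒜 : Finset (Finset V)} {d : ℕ} (h : VCle 𝒜 d) (g : κ → V) :
    VCle (𝒜.image (tr g)) d := by
  intro S hS
  have hinj : Set.InjOn g S := by
    intro i hi j hj hij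
    by_contra hne
    obtain ⟨Q, hQ, hSQ⟩ := hS (singleton_subset_iff.mpr hi)
    rw [mem_image] at hQ
    obtain ⟨A, hA, rfl⟩ := hQ
    have h1 : i ∈ S ∩ tr g A := by rw [hSQ]; exact mem_singleton_self _
    have h2 : j ∈ S ∩ tr g A := by
      rw [mem_inter, mem_tr, ← hij]
      exact ⟨hj, mem_tr.mp (mem_inter.mp h1).2⟩
    rw [hSQ, mem_singleton] at h2
    exact hne h2.symm
  rw [← card_image_of_injOn hinj]
  apply h
  intro T hT
  obtain ⟨Q, hQ, hSQ⟩ := hS (filter_subset (fun i => g i ∈ T) S)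
  rw [mem_image] at hQ
  obtain ⟨A, hA, rfl⟩ := hQ
  refine ⟨A, hA, ?_⟩
  ext v
  rw [mem_inter, mem_image]
  constructor
  · rintro ⟨⟨i, hi, rfl⟩, hv⟩
    have : i ∈ S ∩ tr g A := mem_inter.mpr ⟨hi, mem_tr.mpr hv⟩
    rw [hSQ, mem_filter] at this
    exact this.2
  · intro hv
    obtain ⟨i, hi, rfl⟩ := mem_image.mp (hT hv)
    refine ⟨⟨i, hi, rfl⟩, ?_⟩
    have : i ∈ S ∩ tr g A := by rw [hSQ, mem_filter]; exact ⟨hi, hv⟩
    exact mem_tr.mp (mem_inter.mp this).2

theorem min_eq_sum (a b N : ℕ) (ha : a ≤ N) :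
    min a b = ∑ t ∈ range N, if t < a ∧ t < b then 1 else 0 := by
  rw [← card_filter]
  have : (range N).filter (fun t => t < a ∧ t < b) = range (min a b) := by
    ext t
    simp only [mem_filter, mem_range]
    omega
  rw [this, card_range]

theorem wt_le (𝒜 : Finset (Finset V)) (g : κ → V) (Q : Finset κ) : wt 𝒜 g Q ≤ 𝒜.card :=
  card_filter_le _ _

theorem mem_of_wt {𝒜 : Finset (Finset V)} {g : κ → V} {Q : Finset κ} {t : ℕ}
    (h : t < wt 𝒜 g Q) : Q ∈ 𝒜.image (tr g) := by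
  unfold wt at h
  obtain ⟨A, hA⟩ := card_pos.mp (lt_of_le_of_lt (Nat.zero_le t) h)
  rw [mem_filter] at hA
  exact mem_image.mpr ⟨A, hA.1, hA.2⟩

theorem sum_wt (𝒜 : Finset (Finset V)) (g : κ → V) :
    ∑ Q ∈ 𝒜.image (tr g), wt 𝒜 g Q = 𝒜.card :=
  (card_eq_sum_card_image (tr g) 𝒜).symm

theorem vcle_mono {ι : Type*} [DecidableEq ι] {𝒜 ℬ : Finset (Finset ι)} {d : ℕ} (h : VCle ℬ d)
    (hs : 𝒜 ⊆ ℬ) : VCle 𝒜 d := fun S hS => h S (hS.mono_left hs)

theorem sum_R_le {𝒜 : Finset (Finset V)} {d : ℕ} (h : VCle 𝒜 d) (g : κ → V) :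
    ∑ i, R 𝒜 g i ≤ d * 𝒜.card := by
  set 𝒬 := 𝒜.image (tr g) with h𝒬
  have h1 : ∀ i, R 𝒜 g i = ∑ t ∈ range 𝒜.card, ((𝒬.filter (fun Q => i ∉ Q)).filter
      (fun Q => t < wt 𝒜 g Q ∧ t < wt 𝒜 g (insert i Q))).card := by
    intro i
    unfold R
    rw [sum_congr rfl fun Q _ => min_eq_sum (wt 𝒜 g Q) (wt 𝒜 g (insert i Q)) 𝒜.card
      (wt_le 𝒜 g Q), sum_comm]
    refine sum_congr rfl fun t _ => ?_
    rw [card_filter]
  have h2 : ∑ i, R 𝒜 g i ≤ ∑ t ∈ range 𝒜.card, d * (𝒬.filter (fun Q => t < wt 𝒜 g Q)).card := by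
    rw [sum_congr rfl fun i _ => h1 i, sum_comm]
    refine sum_le_sum fun t _ => ?_
    refine le_trans ?_ (incl_le univ (𝒬.filter (fun Q => t < wt 𝒜 g Q)) d
      (vcle_mono (vcle_trace h g) (filter_subset _ _)))
    unfold incl
    refine sum_le_sum fun i _ => card_le_card ?_
    intro Q hQ
    simp only [mem_filter] at hQ ⊢
    exact ⟨⟨hQ.1.1, hQ.2.1⟩, hQ.1.2, mem_of_wt hQ.2.2, hQ.2.2⟩
  refine h2.trans ?_
  rw [← mul_sum]
  refine Nat.mul_le_mul_left _ ?_
  rw [← sum_wt 𝒜 g]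
  have h3 : ∀ t, (𝒬.filter (fun Q => t < wt 𝒜 g Q)).card
      = ∑ Q ∈ 𝒬, if t < wt 𝒜 g Q then 1 else 0 := fun t => card_filter _ _
  rw [sum_congr rfl fun t _ => h3 t, sum_comm]
  refine sum_le_sum fun Q _ => ?_
  rw [← card_filter]
  have : (range (∑ Q ∈ 𝒬, wt 𝒜 g Q)).filter (fun t => t < wt 𝒜 g Q) ⊆ range (wt 𝒜 g Q) := by
    intro t ht
    rw [mem_filter] at ht
    exact mem_range.mpr ht.2
  exact (card_le_card this).trans (card_range _).le

theorem tr_update_erase (g : κ → V) (i : κ) (a : V) (A : Finset V) :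
    (tr (Function.update g i a) A).erase i = (tr g A).erase i := by
  ext l
  simp only [mem_erase, mem_tr]
  constructor
  · rintro ⟨h1, h2⟩
    rw [Function.update_of_ne h1] at h2
    exact ⟨h1, h2⟩
  · rintro ⟨h1, h2⟩
    refine ⟨h1, ?_⟩
    rw [Function.update_of_ne h1]
    exact h2

theorem tr_update_eq_iff {g : κ → V} {i : κ} {a : V} {A : Finset V} {P : Finset κ} (hP : i ∉ P) :
    tr (Function.update g i a) A = P ↔ (tr g A).erase i = P ∧ a ∉ A := by
  constructor
  · intro h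
    have hi : i ∉ tr (Function.update g i a) A := by rw [h]; exact hP
    refine ⟨?_, ?_⟩
    · rw [← tr_update_erase g i a A, h, erase_eq_self.mpr hP]
    · rw [mem_tr, Function.update_self] at hi
      exact hi
  · rintro ⟨h1, h2⟩
    have hi : i ∉ tr (Function.update g i a) A := by
      rw [mem_tr, Function.update_self]; exact h2
    rw [← erase_eq_self.mpr hi, tr_update_erase, h1]

theorem tr_update_eq_insert_iff {g : κ → V} {i : κ} {a : V} {A : Finset V} {P : Finset κ}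
    (hP : i ∉ P) :
    tr (Function.update g i a) A = insert i P ↔ (tr g A).erase i = P ∧ a ∈ A := by
  constructor
  · intro h
    have hi : i ∈ tr (Function.update g i a) A := by rw [h]; exact mem_insert_self _ _
    refine ⟨?_, ?_⟩
    · rw [← tr_update_erase g i a A, h, erase_insert hP]
    · rw [mem_tr, Function.update_self] at hi
      exact hi
  · rintro ⟨h1, h2⟩
    have hi : i ∈ tr (Function.update g i a) A := by
      rw [mem_tr, Function.update_self]; exact h2
    rw [← insert_erase hi, tr_update_erase, h1]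

theorem R_update (𝒜 : Finset (Finset V)) (g : κ → V) (i : κ) (a : V) :
    R 𝒜 (Function.update g i a) i = ∑ P ∈ 𝒜.image (fun A => (tr g A).erase i),
      min ((𝒜.filter (fun A => (tr g A).erase i = P)).filter (fun A => a ∉ A)).card
        ((𝒜.filter (fun A => (tr g A).erase i = P)).filter (fun A => a ∈ A)).card := by
  unfold R
  have hterm : ∀ P : Finset κ, i ∉ P → min (wt 𝒜 (Function.update g i a) P)
      (wt 𝒜 (Function.update g i a) (insert i P)) =
      min ((𝒜.filter (fun A => (tr g A).erase i = P)).filter (fun A => a ∉ A)).card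
        ((𝒜.filter (fun A => (tr g A).erase i = P)).filter (fun A => a ∈ A)).card := by
    intro P hP
    unfold wt
    rw [filter_filter, filter_filter]
    congr 2
    · exact filter_congr fun A _ => tr_update_eq_iff hP
    · exact filter_congr fun A _ => tr_update_eq_insert_iff hP
  have hnot : ∀ P ∈ 𝒜.image (fun A => (tr g A).erase i), i ∉ P := by
    intro P hP
    obtain ⟨A, _, rfl⟩ := mem_image.mp hP
    exact notMem_erase _ _
  rw [← sum_congr rfl fun P hP => hterm P (hnot P hP)]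
  apply sum_subset
  · intro Q hQ
    rw [mem_filter, mem_image] at hQ
    obtain ⟨⟨A, hA, rfl⟩, hi⟩ := hQ
    rw [mem_image]
    refine ⟨A, hA, ?_⟩
    rw [← tr_update_erase g i a A, erase_eq_self.mpr hi]
  · intro P hP hPn
    have h0 : wt 𝒜 (Function.update g i a) P = 0 := by
      by_contra hne
      apply hPn
      rw [mem_filter]
      exact ⟨mem_of_wt (t := 0) (by omega), hnot P hP⟩
    rw [h0]
    simp

theorem class_ineq {F : Finset (Finset V)} {Δ : ℕ}
    (hΔ : ∀ A ∈ F, ∀ B ∈ F, A ≠ B → Δ ≤ (A \ B).card + (B \ A).card) (hF : F.Nonempty) :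
    Δ * F.card ≤ Δ + 2 * ∑ a, min (F.filter (fun A => a ∉ A)).card
      (F.filter (fun A => a ∈ A)).card := by
  set b := F.card with hb
  have hbpos : 0 < b := card_pos.mpr hF
  have h1 : ∀ a : V, (F.filter (fun A => a ∉ A)).card * (F.filter (fun A => a ∈ A)).card
      ≤ b * min (F.filter (fun A => a ∉ A)).card (F.filter (fun A => a ∈ A)).card := by
    intro a
    have hle0 : (F.filter (fun A => a ∉ A)).card ≤ b := card_filter_le _ _
    have hle1 : (F.filter (fun A => a ∈ A)).card ≤ b := card_filter_le _ _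
    rcases le_total (F.filter (fun A => a ∉ A)).card (F.filter (fun A => a ∈ A)).card with h | h
    · rw [min_eq_left h, mul_comm]
      exact Nat.mul_le_mul_right _ hle1
    · rw [min_eq_right h]
      exact Nat.mul_le_mul_right _ hle0
  have h2 : ∑ a : V, (F.filter (fun A => a ∉ A)).card * (F.filter (fun A => a ∈ A)).card
      = ∑ A ∈ F, ∑ B ∈ F, (B \ A).card := by
    have e1 : ∀ a : V, (F.filter (fun A => a ∉ A)).card * (F.filter (fun A => a ∈ A)).card
        = ∑ A ∈ F, ∑ B ∈ F, if a ∈ B ∧ a ∉ A then 1 else 0 := by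
      intro a
      rw [card_filter, card_filter, sum_mul_sum]
      refine sum_congr rfl fun A _ => sum_congr rfl fun B _ => ?_
      by_cases h1 : a ∈ B <;> by_cases h2 : a ∈ A <;> simp [h1, h2]
    rw [sum_congr rfl fun a _ => e1 a, sum_comm]
    refine sum_congr rfl fun A _ => ?_
    rw [sum_comm]
    refine sum_congr rfl fun B _ => ?_
    rw [← card_filter]
    congr 1
    ext a
    simp
  have h3 : 2 * ∑ A ∈ F, ∑ B ∈ F, (B \ A).card
      = ∑ A ∈ F, ∑ B ∈ F, ((A \ B).card + (B \ A).card) := by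
    have : ∑ A ∈ F, ∑ B ∈ F, (A \ B).card = ∑ A ∈ F, ∑ B ∈ F, (B \ A).card := sum_comm
    rw [sum_congr rfl fun A _ => sum_add_distrib, sum_add_distrib, this, two_mul]
  have h4 : b * ((b - 1) * Δ) ≤ ∑ A ∈ F, ∑ B ∈ F, ((A \ B).card + (B \ A).card) := by
    have : ∀ A ∈ F, (b - 1) * Δ ≤ ∑ B ∈ F, ((A \ B).card + (B \ A).card) := by
      intro A hA
      calc (b - 1) * Δ = ∑ B ∈ F.erase A, Δ := by
            rw [sum_const, card_erase_of_mem hA, smul_eq_mul]
        _ ≤ ∑ B ∈ F.erase A, ((A \ B).card + (B \ A).card) :=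
            sum_le_sum fun B hB => hΔ A hA B (mem_of_mem_erase hB) (ne_of_mem_erase hB).symm
        _ ≤ _ := sum_le_sum_of_subset (erase_subset _ _)
    calc b * ((b - 1) * Δ) = ∑ A ∈ F, (b - 1) * Δ := by rw [sum_const, smul_eq_mul]
      _ ≤ _ := sum_le_sum this
  have h5 : b * ((b - 1) * Δ) ≤ b * (2 * ∑ a, min (F.filter (fun A => a ∉ A)).card
      (F.filter (fun A => a ∈ A)).card) := by
    rw [← h3, ← h2] at h4
    refine h4.trans ?_
    have := sum_le_sum (s := (univ : Finset V)) fun a _ => h1 a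
    rw [← mul_sum] at this
    nlinarith
  have h6 := Nat.le_of_mul_le_mul_left h5 hbpos
  obtain ⟨c, hc⟩ : ∃ c, b = c + 1 := ⟨b - 1, by omega⟩
  rw [hc] at h6 ⊢
  simp only [Nat.add_sub_cancel] at h6
  nlinarith

theorem lower {𝒜 : Finset (Finset V)} {Δ : ℕ}
    (hΔ : ∀ A ∈ 𝒜, ∀ B ∈ 𝒜, A ≠ B → Δ ≤ (A \ B).card + (B \ A).card) (g : κ → V) (i : κ)
    {Φ : ℕ} (hΦ : (𝒜.image (tr g)).card ≤ Φ) :
    Δ * 𝒜.card ≤ Δ * Φ + 2 * ∑ a, R 𝒜 (Function.update g i a) i := by
  rw [sum_congr rfl fun a _ => R_update 𝒜 g i a, sum_comm]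
  set cl := 𝒜.image (fun A => (tr g A).erase i) with hcl
  have h1 : cl.card ≤ Φ := by
    have : cl = (𝒜.image (tr g)).image (fun Q => Q.erase i) := by
      rw [image_image]
      rfl
    rw [this]
    exact card_image_le.trans hΦ
  have h2 : 𝒜.card = ∑ P ∈ cl, (𝒜.filter (fun A => (tr g A).erase i = P)).card :=
    card_eq_sum_card_image _ 𝒜
  calc Δ * 𝒜.card = ∑ P ∈ cl, Δ * (𝒜.filter (fun A => (tr g A).erase i = P)).card := by
        rw [h2, mul_sum]
    _ ≤ ∑ P ∈ cl, (Δ + 2 * ∑ a, min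
          ((𝒜.filter (fun A => (tr g A).erase i = P)).filter (fun A => a ∉ A)).card
          ((𝒜.filter (fun A => (tr g A).erase i = P)).filter (fun A => a ∈ A)).card) := by
        refine sum_le_sum fun P hP => class_ineq ?_ ?_
        · intro A hA B hB hne
          exact hΔ A (mem_filter.mp hA).1 B (mem_filter.mp hB).1 hne
        · obtain ⟨A, hA, hAP⟩ := mem_image.mp hP
          exact ⟨A, mem_filter.mpr ⟨hA, hAP⟩⟩
    _ = Δ * cl.card + 2 * ∑ P ∈ cl, ∑ a, min
          ((𝒜.filter (fun A => (tr g A).erase i = P)).filter (fun A => a ∉ A)).card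
          ((𝒜.filter (fun A => (tr g A).erase i = P)).filter (fun A => a ∈ A)).card := by
        rw [sum_add_distrib, sum_const, smul_eq_mul, mul_sum, mul_comm]
    _ ≤ _ := Nat.add_le_add_right (Nat.mul_le_mul_left _ h1) _

theorem sum_update (F : (κ → V) → ℕ) (i : κ) :
    ∑ g : κ → V, ∑ a : V, F (Function.update g i a) = Fintype.card V * ∑ g : κ → V, F g := by
  let e : (κ → V) × V → (κ → V) × V := fun p => (Function.update p.1 i p.2, p.1 i)
  have he : Function.Involutive e := by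
    rintro ⟨g, a⟩
    simp [e]
  have h1 : ∑ g : κ → V, ∑ a : V, F (Function.update g i a)
      = ∑ p : (κ → V) × V, F (e p).1 := by
    rw [Fintype.sum_prod_type]
  rw [h1, he.bijective.sum_comp (fun p => F p.1), Fintype.sum_prod_type]
  simp [mul_sum]

/-- Haussler's packing lemma, finite form. -/
theorem packing_aux {𝒜 : Finset (Finset V)} {d Δ Φ : ℕ} (h : VCle 𝒜 d)
    (hΔ : ∀ A ∈ 𝒜, ∀ B ∈ 𝒜, A ≠ B → Δ ≤ (A \ B).card + (B \ A).card)
    (hΦ : ∀ g : κ → V, (𝒜.image (tr g)).card ≤ Φ) (hV : 0 < Fintype.card V) :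
    Fintype.card κ * (Δ * 𝒜.card) ≤ Fintype.card κ * (Δ * Φ)
      + 2 * (Fintype.card V * (d * 𝒜.card)) := by
  set N := Fintype.card (κ → V) with hN
  have hNpos : 0 < N := by
    rw [hN, Fintype.card_pos_iff]
    rw [Fintype.card_pos_iff] at hV
    exact ⟨fun _ => hV.some⟩
  have h1 : ∑ g : κ → V, ∑ i : κ, Δ * 𝒜.card ≤ ∑ g : κ → V, ∑ i : κ,
      (Δ * Φ + 2 * ∑ a, R 𝒜 (Function.update g i a) i) :=
    sum_le_sum fun g _ => sum_le_sum fun i _ => lower hΔ g i (hΦ g)
  have h2 : ∑ g : κ → V, ∑ i : κ, ∑ a, R 𝒜 (Function.update g i a) i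
      ≤ Fintype.card V * (N * (d * 𝒜.card)) := by
    rw [sum_comm]
    calc ∑ i : κ, ∑ g : κ → V, ∑ a, R 𝒜 (Function.update g i a) i
        = ∑ i : κ, Fintype.card V * ∑ g : κ → V, R 𝒜 g i :=
          sum_congr rfl fun i _ => sum_update (fun g => R 𝒜 g i) i
      _ = Fintype.card V * ∑ g : κ → V, ∑ i : κ, R 𝒜 g i := by
          rw [← mul_sum, sum_comm]
      _ ≤ Fintype.card V * ∑ g : κ → V, d * 𝒜.card :=
          Nat.mul_le_mul_left _ (sum_le_sum fun g _ => sum_R_le h g)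
      _ = _ := by rw [sum_const, card_univ, smul_eq_mul]
  have h3 : N * (Fintype.card κ * (Δ * 𝒜.card)) ≤ N * (Fintype.card κ * (Δ * Φ)
      + 2 * (Fintype.card V * (d * 𝒜.card))) := by
    have e1 : ∑ g : κ → V, ∑ i : κ, Δ * 𝒜.card = N * (Fintype.card κ * (Δ * 𝒜.card)) := by
      simp [hN]
    have e2 : ∑ g : κ → V, ∑ i : κ, (Δ * Φ + 2 * ∑ a, R 𝒜 (Function.update g i a) i)
        = N * (Fintype.card κ * (Δ * Φ))
          + 2 * ∑ g : κ → V, ∑ i : κ, ∑ a, R 𝒜 (Function.update g i a) i := by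
      simp only [sum_add_distrib, mul_sum]
      simp [hN]
    rw [e1, e2] at h1
    calc _ ≤ _ := h1
      _ ≤ N * (Fintype.card κ * (Δ * Φ)) + 2 * (Fintype.card V * (N * (d * 𝒜.card))) :=
          Nat.add_le_add_left (Nat.mul_le_mul_left _ h2) _
      _ = _ := by ring
  exact Nat.le_of_mul_le_mul_left h3 hNpos

end Pool.Agent.MP_c82047_co
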