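import Mathlib

/-!
A family of pairwise distant sets of bounded VC-dimension is small: random sampling and the
Sauer–Shelah lemma.
-/

set_option autoImplicit false

namespace Pool.Agent.MP_c82047_co

open Finset Classical

variable {V ι : Type*} [Fintype V] [DecidableEq V]

/-- The trace of a set on a sequence of points. -/
noncomputable def trace {m : ℕ} (f : Fin m → V) (A : Finset V) : Finset (Fin m) :=
  univ.filter (fun j => f j ∈ A)

omit [Fintype V] in
lemma vcDim_trace_le {m : ℕ} (f : Fin m → V) (𝒜 : Finset (Finset V)) :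
    (𝒜.image (trace f)).vcDim ≤ 𝒜.vcDim := by
  unfold Finset.vcDim
  apply Finset.sup_le
  intro s hs
  rw [mem_shatterer] at hs
  have hinj : Set.InjOn f s := by
    intro a ha b hb hab
    by_contra hne
    obtain ⟨u, hu, hu2⟩ := hs (show {a} ⊆ s from singleton_subset_iff.2 ha)
    rw [mem_image] at hu
    obtain ⟨A, -, rfl⟩ := hu
    have h1 : a ∈ s ∩ trace f A := by rw [hu2]; exact mem_singleton_self a
    have h2 : f a ∈ A := by
      simp only [trace, mem_inter, mem_filter, mem_univ, true_and] at h1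
      exact h1.2
    have h3 : b ∈ s ∩ trace f A := by
      simp only [trace, mem_inter, mem_filter, mem_univ, true_and]
      exact ⟨hb, hab ▸ h2⟩
    rw [hu2, mem_singleton] at h3
    exact hne h3.symm
  have hsh : 𝒜.Shatters (s.image f) := by
    intro t ht
    obtain ⟨u, hu, hu2⟩ := hs (show s.filter (fun j => f j ∈ t) ⊆ s from filter_subset _ _)
    rw [mem_image] at hu
    obtain ⟨A, hA, rfl⟩ := hu
    refine ⟨A, hA, ?_⟩
    ext y
    constructor
    · intro hy
      rw [mem_inter, mem_image] at hy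
      obtain ⟨⟨j, hj, rfl⟩, hjA⟩ := hy
      have : j ∈ s ∩ trace f A := by
        simp only [trace, mem_inter, mem_filter, mem_univ, true_and]
        exact ⟨hj, hjA⟩
      rw [hu2, mem_filter] at this
      exact this.2
    · intro hy
      have hy' := ht hy
      rw [mem_image] at hy'
      obtain ⟨j, hj, rfl⟩ := hy'
      have : j ∈ s.filter (fun j => f j ∈ t) := by rw [mem_filter]; exact ⟨hj, hy⟩
      rw [← hu2] at this
      simp only [trace, mem_inter, mem_filter, mem_univ, true_and] at this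
      rw [mem_inter, mem_image]
      exact ⟨⟨j, hj, rfl⟩, this.2⟩
  have h1 : (s.image f).card ≤ 𝒜.shatterer.sup card := le_sup (mem_shatterer.2 hsh)
  rw [card_image_of_injOn hinj] at h1
  exact h1

/-- A random sequence of points separates all members of a family of pairwise distant sets. -/
lemma exists_separating (𝒜 : Finset (Finset V)) (m : ℕ) (q : ℝ) (hq : 0 ≤ q)
    (hsep : ∀ A ∈ 𝒜, ∀ A' ∈ 𝒜, A ≠ A' →
      ((Fintype.card V : ℝ) - ((symmDiff A A').card : ℝ)) ≤ q * (Fintype.card V : ℝ))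
    (hV : 0 < Fintype.card V) (hm : ((𝒜.card : ℝ)) ^ 2 * q ^ m < 1) :
    ∃ f : Fin m → V, Set.InjOn (trace f) 𝒜 := by
  by_contra hcon
  push Not at hcon
  set n : ℝ := (Fintype.card V : ℝ) with hn
  have hnpos : 0 < n := by rw [hn]; exact_mod_cast hV
  let Bad : Finset V × Finset V → Finset (Fin m → V) := fun p =>
    Fintype.piFinset (fun _ : Fin m => (symmDiff p.1 p.2)ᶜ)
  have hcov : (univ : Finset (Fin m → V)) ⊆ 𝒜.offDiag.biUnion Bad := by
    intro f _
    have := hcon f
    unfold Set.InjOn at this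
    push Not at this
    obtain ⟨A, hA, A', hA', heq, hne⟩ := this
    rw [mem_biUnion]
    refine ⟨(A, A'), ?_, ?_⟩
    · rw [mem_offDiag]; exact ⟨hA, hA', hne⟩
    · rw [Fintype.mem_piFinset]
      intro j
      rw [mem_compl, mem_symmDiff]
      have h1 : j ∈ trace f A ↔ j ∈ trace f A' := by rw [heq]
      simp only [trace, mem_filter, mem_univ, true_and] at h1
      tauto
  have h1 := card_le_card hcov
  have h2 : ((𝒜.offDiag.biUnion Bad).card : ℝ) ≤ (𝒜.card : ℝ) ^ 2 * (q * n) ^ m := by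
    have h3 : ((𝒜.offDiag.biUnion Bad).card : ℝ) ≤ ∑ p ∈ 𝒜.offDiag, ((Bad p).card : ℝ) := by
      exact_mod_cast card_biUnion_le
    have h4 : ∀ p ∈ 𝒜.offDiag, ((Bad p).card : ℝ) ≤ (q * n) ^ m := by
      intro p hp
      rw [mem_offDiag] at hp
      have h5 : (Bad p).card = ((symmDiff p.1 p.2)ᶜ).card ^ m := by
        simp only [Bad, Fintype.card_piFinset, prod_const, card_univ, Fintype.card_fin]
      rw [h5, Nat.cast_pow]
      apply pow_le_pow_left₀ (by positivity)
      have h6 : (((symmDiff p.1 p.2)ᶜ).card : ℝ) = n - ((symmDiff p.1 p.2).card : ℝ) := by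
        rw [card_compl, Nat.cast_sub (card_le_univ _)]
      rw [h6]
      exact hsep p.1 hp.1 p.2 hp.2.1 hp.2.2
    have h7 := sum_le_card_nsmul 𝒜.offDiag (fun p => ((Bad p).card : ℝ)) _ h4
    rw [nsmul_eq_mul] at h7
    have h8 : (𝒜.offDiag.card : ℝ) ≤ (𝒜.card : ℝ) ^ 2 := by
      rw [offDiag_card, sq]
      have : 𝒜.card * 𝒜.card - 𝒜.card ≤ 𝒜.card * 𝒜.card := Nat.sub_le _ _
      exact_mod_cast this
    have h9 : 0 ≤ (q * n) ^ m := by positivity
    calc ((𝒜.offDiag.biUnion Bad).card : ℝ) ≤ _ := h3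
      _ ≤ _ := h7
      _ ≤ (𝒜.card : ℝ) ^ 2 * (q * n) ^ m := mul_le_mul_of_nonneg_right h8 h9
  have h10 : ((univ : Finset (Fin m → V)).card : ℝ) = n ^ m := by
    rw [card_univ, Fintype.card_fun, Fintype.card_fin, Nat.cast_pow]
  have h11 : n ^ m ≤ (𝒜.card : ℝ) ^ 2 * (q * n) ^ m := by
    rw [← h10]
    refine le_trans ?_ h2
    exact_mod_cast h1
  rw [mul_pow, ← mul_assoc] at h11
  have h12 : 0 < n ^ m := by positivity
  nlinarith

/-- The standard estimate for a partial sum of binomial coefficients. -/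
lemma sum_choose_le (m d : ℕ) (hd : 1 ≤ d) :
    ((∑ i ∈ Iic d, m.choose i : ℕ) : ℝ) ≤ (Real.exp 1 * (1 + (m : ℝ) / d)) ^ d := by
  have hd0 : (0 : ℝ) < d := by exact_mod_cast hd
  set M : ℕ := m + d with hM
  have hMpos : (0 : ℝ) < M := by rw [hM]; push_cast; positivity
  set q : ℝ := (d : ℝ) / M with hq
  have hq0 : 0 < q := div_pos hd0 hMpos
  have hq1 : q ≤ 1 := by
    rw [hq, div_le_one hMpos, hM]; push_cast; linarith [Nat.cast_nonneg (α := ℝ) m]
  have h1 : q ^ d * ((∑ i ∈ Iic d, m.choose i : ℕ) : ℝ) ≤ (1 + q) ^ M := by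
    rw [Nat.cast_sum, mul_sum]
    have h2 : ∀ i ∈ Iic d, q ^ d * ((m.choose i : ℕ) : ℝ) ≤ q ^ i * ((M.choose i : ℕ) : ℝ) := by
      intro i hi
      rw [mem_Iic] at hi
      apply mul_le_mul
      · exact pow_le_pow_of_le_one hq0.le hq1 hi
      · exact_mod_cast Nat.choose_le_choose i (by omega)
      · positivity
      · positivity
    refine le_trans (sum_le_sum h2) ?_
    have h3 : (1 + q) ^ M = ∑ i ∈ range (M + 1), q ^ i * ((M.choose i : ℕ) : ℝ) := by
      rw [add_comm, add_pow]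
      refine sum_congr rfl fun i _ => ?_
      rw [one_pow, mul_one]
    rw [h3]
    apply sum_le_sum_of_subset_of_nonneg
    · intro i hi
      rw [mem_Iic] at hi
      rw [mem_range]; omega
    · intro i _ _
      positivity
  have h4 : (1 + q) ^ M ≤ Real.exp 1 ^ d := by
    have h5 : 1 + q ≤ Real.exp q := by linarith [Real.add_one_le_exp q]
    calc (1 + q) ^ M ≤ (Real.exp q) ^ M := pow_le_pow_left₀ (by positivity) h5 M
      _ = Real.exp (M * q) := by rw [← Real.exp_nat_mul]
      _ = Real.exp (d * 1) := by rw [hq, mul_div_cancel₀ _ hMpos.ne', mul_one]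
      _ = Real.exp 1 ^ d := by rw [Real.exp_nat_mul]
  have h6 : (1 + (m : ℝ) / d) = 1 / q := by
    rw [hq, one_div_div, hM]; push_cast; field_simp; ring
  rw [h6, mul_pow, one_div, inv_pow]
  rw [← div_eq_mul_inv, le_div_iff₀ (by positivity), mul_comm]
  exact le_trans h1 h4

/-- Pairwise distant sets of bounded VC-dimension are few. -/
theorem packing (𝒜 : Finset (Finset V)) (m d : ℕ) (hd : 1 ≤ d) (q : ℝ) (hq : 0 ≤ q)
    (hsep : ∀ A ∈ 𝒜, ∀ A' ∈ 𝒜, A ≠ A' →
      ((Fintype.card V : ℝ) - ((symmDiff A A').card : ℝ)) ≤ q * (Fintype.card V : ℝ))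
    (hV : 0 < Fintype.card V) (hm : ((𝒜.card : ℝ)) ^ 2 * q ^ m < 1) (hvc : 𝒜.vcDim ≤ d) :
    (𝒜.card : ℝ) ≤ (Real.exp 1 * (1 + (m : ℝ) / d)) ^ d := by
  obtain ⟨f, hf⟩ := exists_separating 𝒜 m q hq hsep hV hm
  have h1 : (𝒜.image (trace f)).card = 𝒜.card := card_image_of_injOn hf
  have h2 : (𝒜.image (trace f)).card ≤ ∑ i ∈ Iic d, m.choose i := by
    refine le_trans (card_le_card_shatterer _) ?_
    refine le_trans (card_shatterer_le_sum_vcDim) ?_
    rw [Fintype.card_fin]
    apply sum_le_sum_of_subset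
    apply Iic_subset_Iic.2
    exact le_trans (vcDim_trace_le f 𝒜) hvc
  rw [h1] at h2
  refine le_trans ?_ (sum_choose_le m d hd)
  exact_mod_cast h2

end Pool.Agent.MP_c82047_co
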