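import Pool.Agent.Lib.MP_c82047_co.Grow

/-!
Neighbourhoods of two vertices of a 3-uniform hypergraph in which `k` vertices span fewer than
`k - 3` edges are far apart.
-/

namespace Pool.Agent.MP_c82047_co

open Finset

variable {V : Type*} [Fintype V] [DecidableEq V]

theorem card_union_le {E : Finset (Finset V)} (hE : ∀ e ∈ E, e.card = 3) {k : ℕ} (hk : 3 ≤ k)
    (hfree : ∀ S : Finset V, S.card = k → (spanned E S).card + 3 < k) {y1 y2 : V}
    (hne : y1 ≠ y2) :
    (nbhd E y1 ∪ nbhd E y2).card ≤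
      (k - 3) * ((nbhd E y1 \ nbhd E y2).card + (nbhd E y2 \ nbhd E y1).card + 1) + 2 := by
  classical
  set K : Finset V := {y1, y2} with hK
  have hKc : K.card = 2 := card_pair hne
  obtain ⟨S0, hS0K, hS0k, hS0c, hcomp⟩ := exists_core hE hfree (K := K) (by omega) (by omega)
  set D : Finset V := (nbhd E y1 \ nbhd E y2) ∪ (nbhd E y2 \ nbhd E y1) with hD
  have key : nbhd E y1 ∪ nbhd E y2 ⊆ K ∪ S0 ∪
      (D.filter (fun v => v ∉ S0 ∧ v ∉ K)).biUnion
        (fun v => univ.filter (fun x => (Lk E K).Reachable v x)) := by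
    intro u hu
    by_cases huK : u ∈ K
    · exact mem_union_left _ (mem_union_left _ huK)
    by_cases huS0 : u ∈ S0
    · exact mem_union_left _ (mem_union_right _ huS0)
    apply mem_union_right
    obtain ⟨C, hC, hCS0, hCK, hCk, hCsum⟩ := hcomp u huS0 huK
    have hv : ∃ v ∈ C, (K ∩ nbhd E v).card ≤ 1 := by
      by_contra hcon
      push Not at hcon
      have : ∑ v ∈ C, 2 ≤ ∑ v ∈ C, (K ∩ nbhd E v).card := sum_le_sum fun v hv => hcon v hv
      rw [sum_const, smul_eq_mul] at this
      omega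
    obtain ⟨v, hvC, hv1⟩ := hv
    have hvS0 : v ∉ S0 := disjoint_left.mp hCS0 hvC
    have hvK : v ∉ K := disjoint_left.mp hCK hvC
    have hvU : v ∈ nbhd E y1 ∪ nbhd E y2 := by
      by_cases huv : v = u
      · rw [huv]; exact hu
      · have hr : (Lk E K).Reachable v u := ((hC v).mp hvC).symm
        obtain ⟨p⟩ := hr
        cases p with
        | nil => exact absurd rfl huv
        | cons hadj _ =>
          obtain ⟨-, -, -, e, he, hve, -, w, hwK, hwe⟩ := hadj
          have hvw : v ≠ w := fun h => hvK (h ▸ hwK)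
          have hvN : v ∈ nbhd E w := mem_nbhd.mpr ⟨hvw, e, he, hve, hwe⟩
          rw [hK, mem_insert, mem_singleton] at hwK
          rcases hwK with rfl | rfl
          · exact mem_union_left _ hvN
          · exact mem_union_right _ hvN
    have hnot : ¬ (v ∈ nbhd E y1 ∧ v ∈ nbhd E y2) := by
      rintro ⟨h1, h2⟩
      have : K ⊆ K ∩ nbhd E v := by
        intro w hw
        rw [mem_inter]
        refine ⟨hw, ?_⟩
        rw [hK, mem_insert, mem_singleton] at hw
        rcases hw with rfl | rfl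
        · exact nbhd_comm.mp h1
        · exact nbhd_comm.mp h2
      have := card_le_card this
      omega
    have hvD : v ∈ D := by
      rw [hD, mem_union, mem_sdiff, mem_sdiff]
      rw [mem_union] at hvU
      tauto
    rw [mem_biUnion]
    refine ⟨v, mem_filter.mpr ⟨hvD, hvS0, hvK⟩, ?_⟩
    rw [mem_filter]
    exact ⟨mem_univ _, ((hC v).mp hvC).symm⟩
  have hbi : ((D.filter (fun v => v ∉ S0 ∧ v ∉ K)).biUnion
      (fun v => univ.filter (fun x => (Lk E K).Reachable v x))).card ≤ D.card * (k - 3) := by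
    refine (card_biUnion_le_card_mul _ _ (k - 3) ?_).trans
      (Nat.mul_le_mul_right _ (card_filter_le _ _))
    intro v hv
    rw [mem_filter] at hv
    obtain ⟨C, hC, -, -, hCk, -⟩ := hcomp v hv.2.1 hv.2.2
    have : univ.filter (fun x => (Lk E K).Reachable v x) = C := by
      ext x
      rw [mem_filter, hC x]
      simp
    rw [this]
    omega
  have hDc : D.card ≤ (nbhd E y1 \ nbhd E y2).card + (nbhd E y2 \ nbhd E y1).card :=
    Finset.card_union_le _ _
  have h1 := (card_le_card key).trans (Finset.card_union_le _ _)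
  have h2 := Finset.card_union_le K S0
  have h3 : D.card * (k - 3) ≤ (k - 3) * ((nbhd E y1 \ nbhd E y2).card
      + (nbhd E y2 \ nbhd E y1).card) := by
    rw [mul_comm]
    exact Nat.mul_le_mul_left _ hDc
  have h4 : S0.card ≤ k - 3 := by omega
  rw [mul_add, mul_one]
  omega

theorem codeg_le {E : Finset (Finset V)} (hE : ∀ e ∈ E, e.card = 3) {k : ℕ}
    (hfree : ∀ S : Finset V, S.card = k → (spanned E S).card + 3 < k)
    (hkV : k ≤ Fintype.card V) (hk : 4 ≤ k) {u x : V} (hux : u ≠ x) :
    (E.filter (fun e => u ∈ e ∧ x ∈ e)).card ≤ k - 4 := by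
  by_contra hcon
  push Not at hcon
  obtain ⟨F, hF, hFc⟩ := exists_subset_card_eq (show k - 3 ≤
    (E.filter (fun e => u ∈ e ∧ x ∈ e)).card by omega)
  set S : Finset V := {u, x} ∪ F.biUnion (fun e => e \ {u, x}) with hS
  have hFm : ∀ e ∈ F, e ∈ E ∧ u ∈ e ∧ x ∈ e := fun e he => mem_filter.mp (hF he)
  have hScard : S.card ≤ k := by
    have h1 : (F.biUnion (fun e => e \ {u, x})).card ≤ F.card * 1 := by
      refine card_biUnion_le_card_mul _ _ 1 ?_
      intro e he
      obtain ⟨heE, hu, hx⟩ := hFm e he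
      have h2 : ({u, x} : Finset V) ⊆ e := by
        intro z hz
        rw [mem_insert, mem_singleton] at hz
        rcases hz with rfl | rfl <;> assumption
      rw [card_sdiff_of_subset h2, hE e heE, card_pair hux]
    have h2 : S.card ≤ ({u, x} : Finset V).card + (F.biUnion (fun e => e \ {u, x})).card :=
      Finset.card_union_le _ _
    have h3 : ({u, x} : Finset V).card = 2 := card_pair hux
    rw [h3] at h2
    rw [hFc, mul_one] at h1
    omega
  obtain ⟨S', hSS', hS'⟩ := exists_superset_card_eq hScard hkV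
  have h3 := hfree S' hS'
  have h4 : F ⊆ spanned E S' := by
    intro e he
    obtain ⟨heE, hu, hx⟩ := hFm e he
    unfold spanned
    rw [mem_filter]
    refine ⟨heE, fun z hz => hSS' ?_⟩
    rw [hS, mem_union]
    by_cases hzux : z ∈ ({u, x} : Finset V)
    · exact Or.inl hzux
    · exact Or.inr (mem_biUnion.mpr ⟨e, he, mem_sdiff.mpr ⟨hz, hzux⟩⟩)
  have h5 := card_le_card h4
  omega

theorem six_card_le {E : Finset (Finset V)} (hE : ∀ e ∈ E, e.card = 3) {c : ℕ}
    (hc : ∀ u x : V, u ≠ x → (E.filter (fun e => u ∈ e ∧ x ∈ e)).card ≤ c) :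
    6 * E.card ≤ c * ∑ u, (nbhd E u).card := by
  have h1 : 6 * E.card = ∑ e ∈ E, e.offDiag.card := by
    rw [sum_congr rfl (fun e he => show e.offDiag.card = 6 by rw [offDiag_card, hE e he])]
    rw [sum_const, smul_eq_mul, mul_comm]
  have h2 : ∀ e : Finset V, e.offDiag.card
      = ∑ u : V, ∑ x : V, if u ∈ e ∧ x ∈ e ∧ u ≠ x then 1 else 0 := by
    intro e
    rw [← Fintype.sum_prod_type (f := fun p : V × V =>
      if p.1 ∈ e ∧ p.2 ∈ e ∧ p.1 ≠ p.2 then 1 else 0), ← card_filter]
    congr 1
    ext p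
    simp [mem_offDiag]
  rw [h1, sum_congr rfl fun e _ => h2 e, sum_comm, mul_sum]
  refine sum_le_sum fun u _ => ?_
  rw [sum_comm]
  have h3 : ∀ x : V, (∑ e ∈ E, if u ∈ e ∧ x ∈ e ∧ u ≠ x then 1 else 0)
      ≤ if x ∈ nbhd E u then c else 0 := by
    intro x
    by_cases hux : u = x
    · subst hux
      simp
    · split_ifs with h
      · rw [← card_filter]
        refine le_trans (card_le_card ?_) (hc u x hux)
        intro e he
        rw [mem_filter] at he ⊢
        exact ⟨he.1, he.2.1, he.2.2.1⟩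
      · rw [Nat.le_zero]
        refine sum_eq_zero fun e he => ?_
        rw [if_neg]
        rintro ⟨h4, h5, -⟩
        exact h (mem_nbhd.mpr ⟨fun h => hux h.symm, e, he, h5, h4⟩)
  refine (sum_le_sum fun x _ => h3 x).trans ?_
  rw [← sum_filter, sum_const, smul_eq_mul, mul_comm]
  have : univ.filter (fun x => x ∈ nbhd E u) = nbhd E u := by ext x; simp
  rw [this]

end Pool.Agent.MP_c82047_co
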