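import Mathlib
import Pool.Agent.Lib.MP_c82047_co.Degrees
import Pool.Agent.Lib.MP_c82047_co.Sampling

/-!
The Brown–Erdős–Sós problem for 3-graphs whose shadow has small VC-dimension.
-/

set_option autoImplicit false

namespace Pool.Agent.MP_c82047_co

open Finset Classical

variable {V : Type*} [Fintype V] [DecidableEq V]

lemma deg_le {k : ℕ} {H : Finset (Finset V)} (h3 : ∀ e ∈ H, e.card = 3) (hH : BESFree k H)
    (hk : k ≤ Fintype.card V) (hk3 : 3 ≤ k) (v : V) : deg H v ≤ k * Fintype.card V := by
  unfold deg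
  have hsub : H.filter (fun e => v ∈ e) ⊆
      (univ.erase v).biUnion (fun u => H.filter (fun e => v ∈ e ∧ u ∈ e)) := by
    intro e he
    rw [mem_filter] at he
    obtain ⟨u, hu, huv⟩ := exists_mem_ne (by rw [h3 e he.1]; norm_num : 1 < e.card) v
    rw [mem_biUnion]
    exact ⟨u, by simp [huv], by rw [mem_filter]; exact ⟨he.1, he.2, hu⟩⟩
  refine le_trans (card_le_card hsub) ?_
  refine le_trans (card_biUnion_le_card_mul _ _ k ?_) ?_
  · intro u hu
    rw [mem_erase] at hu
    exact codeg_le h3 hH hk hk3 hu.1.symm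
  · rw [mul_comm]
    apply Nat.mul_le_mul_left
    exact le_trans (card_le_univ _) le_rfl

lemma sum_deg {H : Finset (Finset V)} (h3 : ∀ e ∈ H, e.card = 3) :
    ∑ v, deg H v = 3 * H.card := by
  unfold deg
  simp only [card_filter]
  rw [sum_comm]
  have : ∀ e ∈ H, (∑ v, if v ∈ e then 1 else 0) = 3 := by
    intro e he
    rw [← card_filter]
    have : univ.filter (fun v => v ∈ e) = e := by ext; simp
    rw [this, h3 e he]
  rw [sum_congr rfl this, sum_const, smul_eq_mul, mul_comm]

/-- The main estimate over an arbitrary vertex set. -/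
theorem vc_bound {k : ℕ} {H : Finset (Finset V)} (h3 : ∀ e ∈ H, e.card = 3)
    (hH : BESFree k H) (hk : k ≤ Fintype.card V) (hk4 : 4 ≤ k) (d : ℕ) (hd : 1 ≤ d)
    (hvc : (univ.image (nbhd H)).vcDim ≤ d) :
    (H.card : ℝ) ≤ k * (k + 6) * (1 + Real.log (Fintype.card V) / d) *
      (Fintype.card V : ℝ) ^ (2 - 1 / ((d : ℝ) + 1)) := by
  set n : ℝ := (Fintype.card V : ℝ) with hn
  have hkR : (4 : ℝ) ≤ k := by exact_mod_cast hk4
  have hkn : (k : ℝ) ≤ n := by rw [hn]; exact_mod_cast hk
  have hn4 : (4 : ℝ) ≤ n := le_trans hkR hkn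
  have hn0 : 0 < n := by linarith
  have hn1 : 1 ≤ n := by linarith
  have hd0 : (0 : ℝ) < d := by exact_mod_cast hd
  have hlog : 0 ≤ Real.log n := Real.log_nonneg hn1
  set X : ℝ := 1 + Real.log n / d with hX
  have hX1 : 1 ≤ X := by
    have : 0 ≤ Real.log n / d := div_nonneg hlog hd0.le
    linarith
  -- `n` is at most the power on the right-hand side
  have hpow : n ≤ n ^ (2 - 1 / ((d : ℝ) + 1)) := by
    have h1 : (1 : ℝ) ≤ 2 - 1 / ((d : ℝ) + 1) := by
      have : 1 / ((d : ℝ) + 1) ≤ 1 := by
        rw [div_le_one (by linarith)]; linarith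
      linarith
    calc n = n ^ (1 : ℝ) := (Real.rpow_one n).symm
      _ ≤ _ := Real.rpow_le_rpow_of_exponent_le hn1 h1
  have hP0 : 0 < n ^ (2 - 1 / ((d : ℝ) + 1)) := Real.rpow_pos_of_pos hn0 _
  rcases le_or_gt (H.card : ℝ) (k * (k + 3) * n) with hsmall | hlarge
  · calc (H.card : ℝ) ≤ k * (k + 3) * n := hsmall
      _ ≤ k * (k + 6) * n := by
          apply mul_le_mul_of_nonneg_right _ hn0.le
          nlinarith
      _ ≤ k * (k + 6) * X * n := by
          apply mul_le_mul_of_nonneg_right _ hn0.le
          exact le_mul_of_one_le_right (by positivity) hX1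
      _ ≤ k * (k + 6) * X * n ^ (2 - 1 / ((d : ℝ) + 1)) := by
          apply mul_le_mul_of_nonneg_left hpow
          positivity
  · set h : ℝ := (H.card : ℝ) with hh
    have hpos : 0 < h := lt_trans (by positivity) hlarge
    set δ : ℝ := h / (k * n ^ 2) with hδ
    have hδ0 : 0 < δ := by positivity
    -- the vertices of large degree
    set big : Finset V := univ.filter (fun v => h / n ≤ (deg H v : ℝ)) with hbig
    have hdegle : ∀ v, (deg H v : ℝ) ≤ k * n := by
      intro v
      have := deg_le h3 hH hk (by omega) v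
      rw [hn]
      exact_mod_cast this
    have hsum : ∑ v, (deg H v : ℝ) = 3 * h := by
      have := sum_deg h3
      rw [hh]
      exact_mod_cast this
    have hbigcard : 2 * h / (k * n) ≤ (big.card : ℝ) := by
      have h1 : 3 * h ≤ (big.card : ℝ) * (k * n) + h := by
        rw [← hsum, ← sum_filter_add_sum_filter_not univ (fun v => h / n ≤ (deg H v : ℝ))]
        apply add_le_add
        · have := sum_le_card_nsmul big (fun v => (deg H v : ℝ)) (k * n) (fun v _ => hdegle v)
          rw [nsmul_eq_mul] at this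
          exact this
        · have h2 := sum_le_card_nsmul (univ.filter (fun v => ¬ h / n ≤ (deg H v : ℝ)))
            (fun v => (deg H v : ℝ)) (h / n) (fun v hv => by
              simp only [mem_filter, mem_univ, true_and, not_le] at hv
              exact hv.le)
          rw [nsmul_eq_mul] at h2
          refine le_trans h2 ?_
          have h3 : ((univ.filter (fun v => ¬ h / n ≤ (deg H v : ℝ))).card : ℝ) ≤ n := by
            rw [hn]; exact_mod_cast card_le_univ _
          calc ((univ.filter (fun v => ¬ h / n ≤ (deg H v : ℝ))).card : ℝ) * (h / n)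
              ≤ n * (h / n) := mul_le_mul_of_nonneg_right h3 (by positivity)
            _ = h := by field_simp
      rw [div_le_iff₀ (by positivity)]
      linarith
    -- distances
    have hdist : ∀ x ∈ big, ∀ y ∈ big, x ≠ y →
        δ * n ≤ ((symmDiff (nbhd H x) (nbhd H y)).card : ℝ) := by
      intro x hx y hy hxy
      simp only [hbig, mem_filter, mem_univ, true_and] at hx hy
      have h1 := twin h3 hH hk hk4 hxy
      have h2 : (deg H x : ℝ) + (deg H y : ℝ) ≤
          k * (((symmDiff (nbhd H x) (nbhd H y)).card : ℝ) + k + 3) := by exact_mod_cast h1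
      have h4 : 2 * (h / n) ≤
          k * (((symmDiff (nbhd H x) (nbhd H y)).card : ℝ) + k + 3) := by linarith
      have h5 : δ * n = h / n / k := by
        rw [hδ]; field_simp
      rw [h5, div_le_iff₀ (by linarith)]
      have h6 : k * (k + 3) ≤ h / n := by
        rw [le_div_iff₀ hn0]; exact hlarge.le
      nlinarith
    have hδ1 : δ ≤ 1 := by
      have h1 : 3 * h ≤ n * (k * n) := by
        rw [← hsum]
        have := sum_le_card_nsmul (univ : Finset V) (fun v => (deg H v : ℝ)) (k * n)
          (fun v _ => hdegle v)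
        rw [nsmul_eq_mul, card_univ] at this
        exact this
      rw [hδ, div_le_one (by positivity)]
      nlinarith
    have hinj : Set.InjOn (nbhd H) big := by
      intro x hx y hy hxy
      by_contra hne
      have := hdist x hx y hy hne
      rw [hxy, symmDiff_self] at this
      simp only [bot_eq_empty, card_empty, Nat.cast_zero] at this
      nlinarith
    -- sampling
    set 𝒜 : Finset (Finset V) := big.image (nbhd H) with h𝒜
    have h𝒜card : 𝒜.card = big.card := card_image_of_injOn hinj
    set m : ℕ := ⌊2 * Real.log n / δ⌋₊ + 1 with hm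
    have hm1 : 2 * Real.log n / δ < m := by
      rw [hm]; push_cast; exact Nat.lt_floor_add_one _
    have hm2 : (m : ℝ) ≤ 2 * Real.log n / δ + 1 := by
      rw [hm]; push_cast
      have := Nat.floor_le (show 0 ≤ 2 * Real.log n / δ by positivity)
      linarith
    have hpack := packing 𝒜 m d hd (1 - δ) (by linarith) (by
        intro A hA A' hA' hne
        rw [h𝒜, mem_image] at hA hA'
        obtain ⟨x, hx, rfl⟩ := hA
        obtain ⟨y, hy, rfl⟩ := hA'
        have hxy : x ≠ y := fun h => hne (by rw [h])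
        have := hdist x hx y hy hxy
        linarith) (by
        have : (0 : ℝ) < (Fintype.card V : ℝ) := hn0
        exact_mod_cast this) (by
        have h1 : ((𝒜.card : ℝ)) ^ 2 ≤ n ^ 2 := by
          apply pow_le_pow_left₀ (by positivity)
          rw [h𝒜card, hn]
          exact_mod_cast card_le_univ _
        have h2 : (1 - δ) ^ m ≤ Real.exp (-(δ * m)) := by
          have h4 : 1 - δ ≤ Real.exp (-δ) := by
            have := Real.add_one_le_exp (-δ); linarith
          calc (1 - δ) ^ m ≤ (Real.exp (-δ)) ^ m := pow_le_pow_left₀ (by linarith) h4 m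
            _ = Real.exp (m * (-δ)) := by rw [← Real.exp_nat_mul]
            _ = Real.exp (-(δ * m)) := by ring_nf
        have h5 : 2 * Real.log n < δ * m := by
          rw [div_lt_iff₀ hδ0] at hm1
          linarith
        have h6 : Real.exp (-(δ * m)) < (n ^ 2)⁻¹ := by
          have : (n ^ 2)⁻¹ = Real.exp (-(2 * Real.log n)) := by
            rw [Real.exp_neg, two_mul, Real.exp_add, Real.exp_log hn0, sq]
          rw [this]
          exact Real.exp_lt_exp.2 (by linarith)
        calc ((𝒜.card : ℝ)) ^ 2 * (1 - δ) ^ m ≤ n ^ 2 * Real.exp (-(δ * m)) :=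
              mul_le_mul h1 h2 (pow_nonneg (by linarith) _) (by positivity)
          _ < n ^ 2 * (n ^ 2)⁻¹ := mul_lt_mul_of_pos_left h6 (by positivity)
          _ = 1 := mul_inv_cancel₀ (by positivity)) (by
        refine le_trans (vcDim_mono ?_) hvc
        exact image_subset_image (subset_univ _))
    rw [h𝒜card] at hpack
    -- conclusion
    set A : ℝ := 2 * Real.exp 1 * X with hA
    have hexp1 : (1 : ℝ) ≤ Real.exp 1 := by
      have := Real.add_one_le_exp (1 : ℝ); linarith
    have hA1 : 1 ≤ A := by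
      rw [hA]; nlinarith
    have h1 : Real.exp 1 * (1 + (m : ℝ) / d) ≤ A / δ := by
      have h2 : 1 + (m : ℝ) / d ≤ 2 * X / δ := by
        have hd1 : (1 : ℝ) ≤ d := by exact_mod_cast hd
        have h4 : (m : ℝ) / d ≤ (2 * Real.log n / δ + 1) / d := div_le_div_of_nonneg_right hm2 hd0.le
        have h5 : (2 * Real.log n / δ + 1) / d ≤ 2 * (Real.log n / d) / δ + 1 := by
          have e1 : (2 * Real.log n / δ + 1) / d = 2 * (Real.log n / d) / δ + 1 / d := by
            field_simp
          rw [e1]
          have : 1 / (d : ℝ) ≤ 1 := by rw [div_le_one hd0]; exact hd1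
          linarith
        have h6 : (1 : ℝ) ≤ 1 / δ := by rw [le_div_iff₀ hδ0]; linarith
        have h7 : 2 * X / δ = 2 * (1 / δ) + 2 * (Real.log n / d) / δ := by
          rw [hX]; field_simp
        rw [h7]
        linarith
      calc Real.exp 1 * (1 + (m : ℝ) / d) ≤ Real.exp 1 * (2 * X / δ) :=
            mul_le_mul_of_nonneg_left h2 (by positivity)
        _ = A / δ := by rw [hA]; ring
    have h2 : 2 * (δ * n) ≤ (A / δ) ^ d := by
      have h4 : 2 * h / (k * n) = 2 * (δ * n) := by rw [hδ]; field_simp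
      rw [← h4]
      refine le_trans hbigcard (le_trans hpack ?_)
      exact pow_le_pow_left₀ (by positivity) h1 d
    have h4 : δ ^ (d + 1) * n ≤ A ^ (d + 1) := by
      rw [div_pow, le_div_iff₀ (by positivity)] at h2
      have h5 : A ^ d ≤ A ^ (d + 1) := pow_le_pow_right₀ hA1 (Nat.le_succ d)
      have h6 : 0 < δ ^ (d + 1) * n := by positivity
      calc δ ^ (d + 1) * n ≤ 2 * (δ * n) * δ ^ d := by
            have : 2 * (δ * n) * δ ^ d = 2 * (δ ^ (d + 1) * n) := by ring
            rw [this]; linarith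
        _ ≤ A ^ d := h2
        _ ≤ A ^ (d + 1) := h5
    -- take roots
    set r : ℝ := n ^ (1 / ((d : ℝ) + 1)) with hr
    have hr0 : 0 < r := Real.rpow_pos_of_pos hn0 _
    have hrpow : r ^ (d + 1) = n := by
      rw [hr, ← Real.rpow_natCast, ← Real.rpow_mul hn0.le]
      push_cast
      rw [one_div, inv_mul_cancel₀ (by linarith), Real.rpow_one]
    have h5 : δ * r ≤ A := by
      have h6 : (δ * r) ^ (d + 1) ≤ A ^ (d + 1) := by
        rw [mul_pow, hrpow]; exact h4
      exact le_of_pow_le_pow_left₀ (by omega) (by linarith) h6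
    have h6 : n ^ (2 - 1 / ((d : ℝ) + 1)) = n ^ 2 / r := by
      rw [Real.rpow_sub hn0, hr]
      norm_num
    rw [h6]
    have h7 : h = k * n ^ 2 * δ := by rw [hδ]; field_simp
    have h8 : δ ≤ A / r := by rw [le_div_iff₀ hr0]; exact h5
    have hexp : Real.exp 1 ≤ 3 := by
      have := Real.exp_one_lt_d9; linarith
    calc h = k * n ^ 2 * δ := h7
      _ ≤ k * n ^ 2 * (A / r) := mul_le_mul_of_nonneg_left h8 (by positivity)
      _ = k * (2 * Real.exp 1) * X * (n ^ 2 / r) := by rw [hA]; ring
      _ ≤ k * (k + 6) * X * (n ^ 2 / r) := by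
          apply mul_le_mul_of_nonneg_right _ (by positivity)
          apply mul_le_mul_of_nonneg_right _ (by positivity)
          apply mul_le_mul_of_nonneg_left _ (by positivity)
          linarith

/-- The bound `vc_bound` with the VC-dimension spelled out. -/
theorem vc_bound' {k : ℕ} {H : Finset (Finset V)} (h3 : ∀ e ∈ H, e.card = 3)
    (hH : BESFree k H) (hk : k ≤ Fintype.card V) (hk4 : 4 ≤ k) (d : ℕ) (hd : 1 ≤ d)
    (hvc : ∀ B : Finset V, (∀ C : Finset V, C ⊆ B → ∃ x, ∀ y ∈ B,
      ((x ≠ y ∧ ∃ e ∈ H, x ∈ e ∧ y ∈ e) ↔ y ∈ C)) → B.card ≤ d) :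
    (H.card : ℝ) ≤ k * (k + 6) * (1 + Real.log (Fintype.card V) / d) *
      (Fintype.card V : ℝ) ^ (2 - 1 / ((d : ℝ) + 1)) := by
  refine vc_bound h3 hH hk hk4 d hd ?_
  unfold Finset.vcDim
  refine Finset.sup_le ?_
  intro B hB
  rw [Finset.mem_shatterer] at hB
  refine hvc B ?_
  intro C hC
  obtain ⟨u, hu, huC⟩ := hB hC
  obtain ⟨x, -, hx⟩ := Finset.mem_image.1 hu
  refine ⟨x, ?_⟩
  intro y hy
  rw [← huC, ← hx, Finset.mem_inter]
  have hm : y ∈ nbhd H x ↔ (x ≠ y ∧ ∃ e ∈ H, x ∈ e ∧ y ∈ e) := by
    rw [nbhd, Finset.mem_filter]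
    exact ⟨fun h => h.2, fun h => ⟨mem_univ _, h⟩⟩
  rw [hm]
  exact ⟨fun h => ⟨hy, h⟩, fun h => h.2⟩

end Pool.Agent.MP_c82047_co
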